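import Pool.Agent.H91.NVA.Aff
import Pool.Agent.H71.GEN.Poly
import Pool.Agent.H91.LA.Jet

/-!
# No relation in natural coordinates

`grow_box`: growth from a unit box. `psn`: the pullback of a polynomial in the natural coordinates.
`nco_pt`: the natural coordinates are onto. `relvN`: no relation in the natural coordinates.
-/

set_option autoImplicit false

namespace Pool.NVA91

open Finset Real MvPolynomial
open Pool.Agent.H49.Ent Pool.Agent.H32.Dense Pool.STK Pool.KA Pool.KSAT Pool.K2S Pool.PB Pool.S6C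
open Pool.GEN Pool.CHT Pool.ISO Pool.D2R Pool.NV24
open Pool.FLF (Fam.sub)
open Pool.LA91 (lp natDegree_lp eval_alp)

variable {m J : ℕ}

/-- **Growth** from a unit box. -/
theorem grow_box (D : ℕ) : ∃ c' : ℕ, ∀ (n : ℕ) (Q : P4) (x₀ x₁ : V4) (M : ℝ), Q.totalDegree ≤ D →
    (∀ x : V4, (∀ o, |x o - x₀ o| ≤ 1) → |eval x Q| ≤ M) → (∀ o, |x₁ o - x₀ o| ≤ 2 ^ n) →
    |eval x₁ Q| ≤ 2 ^ (c' + n * D) * M := by
  obtain ⟨C, hC, h⟩ := grow_one D
  obtain ⟨c₀, hc₀⟩ := pow_unbounded_of_one_lt C (one_lt_two (α := ℝ))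
  refine ⟨c₀, ?_⟩
  intro n Q x₀ x₁ M hQ hM hx
  have hM0 : 0 ≤ M := (abs_nonneg _).trans (hM x₀ (fun o => by rw [sub_self, abs_zero]; norm_num))
  have h2n : (0 : ℝ) < 2 ^ n := by positivity
  have h1 := h (aeval (lp x₀ (fun o => x₁ o - x₀ o)) Q) M n D
    (Pool.KBX.natDegree_aeval_le _ _ (natDegree_lp _ _) hQ) le_rfl (fun τ hτ => by
      rw [eval_alp]
      refine hM _ fun o => ?_
      rw [add_sub_cancel_left, abs_mul, abs_of_nonneg (div_nonneg hτ.1 h2n.le)]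
      calc τ / 2 ^ n * |x₁ o - x₀ o| ≤ 1 / 2 ^ n * 2 ^ n :=
            mul_le_mul (div_le_div_of_nonneg_right hτ.2 h2n.le) (hx o) (abs_nonneg _)
              (by positivity)
        _ = 1 := by field_simp)
  rw [eval_alp] at h1
  have e1 : (fun o => x₀ o + 1 * (x₁ o - x₀ o)) = x₁ := by
    funext o
    ring
  rw [e1] at h1
  refine h1.trans (mul_le_mul_of_nonneg_right ?_ hM0)
  rw [pow_add]
  exact mul_le_mul_of_nonneg_right hc₀.le (by positivity)

/-- The natural coordinates as polynomials. -/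
noncomputable def rhn (c : ℕ → Fin m) (w g1 g2 : ℕ) (τ : ℝ)
    (U V : MvPolynomial (Option (Fin m)) ℝ) :
    Option (Fin 3) → MvPolynomial (Option (Fin m)) ℝ
  | none => C (2 ^ w) * X none - C τ
  | some i => Fin.cases (C (2 ^ w) * X (some (c 0)))
      ![C (2 ^ g1) * (X (some (c 1)) - U), C (2 ^ g2) * (X (some (c 2)) - V)] i

/-- **The pullback** of a polynomial in the natural coordinates. -/
noncomputable def psn (c : ℕ → Fin m) (w g1 g2 : ℕ) (τ : ℝ)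
    (U V : MvPolynomial (Option (Fin m)) ℝ) (Q : P4) : MvPolynomial (Option (Fin m)) ℝ :=
  aeval (rhn c w g1 g2 τ U V) Q

theorem eval_psn (c : ℕ → Fin m) (w g1 g2 : ℕ) (τ : ℝ) (U V : MvPolynomial (Option (Fin m)) ℝ)
    (Q : P4) (b : Option (Fin m) → ℝ) :
    eval b (psn c w g1 g2 τ U V Q) = eval (nco c w g1 g2 τ U V b) Q := by
  unfold psn
  rw [eval_aevalσ]
  congr 2
  refine funext (cases4 ?_ ?_ fun j => ?_)
  · show eval b (C (2 ^ w) * X none - C τ) = 2 ^ w * b none - τ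
    simp only [map_sub, map_mul, eval_C, eval_X]
  · show eval b (C (2 ^ w) * X (some (c 0))) = 2 ^ w * b (some (c 0))
    simp only [map_mul, eval_C, eval_X]
  · show eval b (![C (2 ^ g1) * (X (some (c 1)) - U), C (2 ^ g2) * (X (some (c 2)) - V)] j) =
      ![2 ^ g1 * (b (some (c 1)) - eval b U), 2 ^ g2 * (b (some (c 2)) - eval b V)] j
    fin_cases j
    · show eval b (C (2 ^ g1) * (X (some (c 1)) - U)) = 2 ^ g1 * (b (some (c 1)) - eval b U)
      simp only [map_sub, map_mul, eval_C, eval_X]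
    · show eval b (C (2 ^ g2) * (X (some (c 2)) - V)) = 2 ^ g2 * (b (some (c 2)) - eval b V)
      simp only [map_sub, map_mul, eval_C, eval_X]

theorem deg_psn {c : ℕ → Fin m} {w g1 g2 : ℕ} {τ : ℝ} {U V : MvPolynomial (Option (Fin m)) ℝ}
    (hU : U.totalDegree ≤ 1) (hV : V.totalDegree ≤ 1) {Q : P4} {D : ℕ} (hQ : Q.totalDegree ≤ D) :
    (psn c w g1 g2 τ U V Q).totalDegree ≤ D := by
  have h : (psn c w g1 g2 τ U V Q).totalDegree ≤ 1 * D := by
    refine totalDegree_aevalσ (cases4 ?_ ?_ fun j => ?_) hQ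
    · show (C (2 ^ w) * X none - C τ : MvPolynomial (Option (Fin m)) ℝ).totalDegree ≤ 1
      refine (totalDegree_sub _ _).trans (max_le ((totalDegree_mul _ _).trans ?_) ?_)
      · rw [totalDegree_C, totalDegree_X]
      · rw [totalDegree_C]
        omega
    · show (C (2 ^ w) * X (some (c 0)) : MvPolynomial (Option (Fin m)) ℝ).totalDegree ≤ 1
      refine (totalDegree_mul _ _).trans ?_
      rw [totalDegree_C, totalDegree_X]
    · have key : ∀ (a : ℝ) (k : Fin m) (W : MvPolynomial (Option (Fin m)) ℝ),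
          W.totalDegree ≤ 1 → (C a * (X (some k) - W)).totalDegree ≤ 1 := by
        intro a k W hW
        refine (totalDegree_mul _ _).trans ?_
        rw [totalDegree_C, zero_add]
        exact (totalDegree_sub _ _).trans (max_le (by rw [totalDegree_X]) hW)
      show ((![C (2 ^ g1) * (X (some (c 1)) - U), C (2 ^ g2) * (X (some (c 2)) - V)] j :
        MvPolynomial (Option (Fin m)) ℝ)).totalDegree ≤ 1
      fin_cases j
      · exact key _ _ _ hU
      · exact key _ _ _ hV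
  rwa [one_mul] at h

theorem dep_psn {c : ℕ → Fin m} {w g1 g2 : ℕ} {τ : ℝ} {U V : MvPolynomial (Option (Fin m)) ℝ}
    (hU : DepC c 1 U) (hV : DepC c 2 V) (Q : P4) : DepC c 3 (psn c w g1 g2 τ U V Q) := by
  intro b b' h0 h1
  rw [eval_psn, eval_psn]
  have e : nco c w g1 g2 τ U V b = nco c w g1 g2 τ U V b' := by
    unfold nco
    rw [h0, h1 0 (by norm_num), h1 1 (by norm_num), h1 2 (by norm_num),
      hU b b' h0 (fun l hl => h1 l (by omega)), hV b b' h0 (fun l hl => h1 l (by omega))]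
  rw [e]

/-- **The natural coordinates are onto.** -/
theorem nco_pt {c : ℕ → Fin m} (hc : Set.InjOn c (Set.Iio 3)) (w g1 g2 : ℕ) (τ : ℝ)
    {U V : MvPolynomial (Option (Fin m)) ℝ} (hU : DepC c 1 U) (hV : DepC c 2 V) (ξ : V4) :
    ∃ b : Option (Fin m) → ℝ, nco c w g1 g2 τ U V b = ξ ∧ b none = (ξ none + τ) / 2 ^ w ∧
      b (some (c 0)) = ξ (some 0) / 2 ^ w ∧
      b (some (c 1)) = ξ (vt 0) / 2 ^ g1 + eval b U ∧
      b (some (c 2)) = ξ (vt 1) / 2 ^ g2 + eval b V := by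
  classical
  have n01 : c 1 ≠ c 0 := fun h => by
    have := hc (Set.mem_Iio.2 (show 1 < 3 by norm_num)) (Set.mem_Iio.2 (show 0 < 3 by norm_num)) h
    omega
  have n02 : c 2 ≠ c 0 := fun h => by
    have := hc (Set.mem_Iio.2 (show 2 < 3 by norm_num)) (Set.mem_Iio.2 (show 0 < 3 by norm_num)) h
    omega
  have n12 : c 2 ≠ c 1 := fun h => by
    have := hc (Set.mem_Iio.2 (show 2 < 3 by norm_num)) (Set.mem_Iio.2 (show 1 < 3 by norm_num)) h
    omega
  obtain ⟨b₁, hb₁⟩ : ∃ b₁ : Option (Fin m) → ℝ, b₁ = fun o => match o with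
    | none => (ξ none + τ) / 2 ^ w
    | some _ => ξ (some 0) / 2 ^ w := ⟨_, rfl⟩
  obtain ⟨b₂, hb₂⟩ : ∃ b₂, b₂ = Function.update b₁ (some (c 1))
    (ξ (vt 0) / 2 ^ g1 + eval b₁ U) := ⟨_, rfl⟩
  obtain ⟨b, hb⟩ : ∃ b, b = Function.update b₂ (some (c 2))
    (ξ (vt 1) / 2 ^ g2 + eval b₂ V) := ⟨_, rfl⟩
  have a0 : b₁ none = (ξ none + τ) / 2 ^ w := by rw [hb₁]
  have a1 : ∀ k, b₁ (some k) = ξ (some 0) / 2 ^ w := fun k => by rw [hb₁]
  have c0 : b₂ none = b₁ none := by rw [hb₂, Function.update_of_ne (by simp)]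
  have c1 : b₂ (some (c 0)) = b₁ (some (c 0)) := by
    rw [hb₂, Function.update_of_ne (by simpa using n01.symm)]
  have c2 : b₂ (some (c 1)) = ξ (vt 0) / 2 ^ g1 + eval b₁ U := by
    rw [hb₂, Function.update_self]
  have d0 : b none = b₂ none := by rw [hb, Function.update_of_ne (by simp)]
  have d1 : b (some (c 0)) = b₂ (some (c 0)) := by
    rw [hb, Function.update_of_ne (by simpa using n02.symm)]
  have d2 : b (some (c 1)) = b₂ (some (c 1)) := by
    rw [hb, Function.update_of_ne (by simpa using n12.symm)]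
  have d3 : b (some (c 2)) = ξ (vt 1) / 2 ^ g2 + eval b₂ V := by
    rw [hb, Function.update_self]
  have eU : eval b U = eval b₁ U := hU b b₁ (by rw [d0, c0]) fun l hl => by
    have : l = 0 := by omega
    rw [this, d1, c1]
  have eV : eval b V = eval b₂ V := hV b b₂ d0 fun l hl => by
    have : l = 0 ∨ l = 1 := by omega
    rcases this with rfl | rfl
    · exact d1
    · exact d2
  have r0 : b none = (ξ none + τ) / 2 ^ w := by rw [d0, c0, a0]
  have r1 : b (some (c 0)) = ξ (some 0) / 2 ^ w := by rw [d1, c1, a1]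
  have r2 : b (some (c 1)) = ξ (vt 0) / 2 ^ g1 + eval b U := by rw [d2, c2, eU]
  have r3 : b (some (c 2)) = ξ (vt 1) / 2 ^ g2 + eval b V := by rw [d3, eV]
  refine ⟨b, ?_, r0, r1, r2, r3⟩
  refine vec_ext ?_ ?_ fun j => ?_
  · show 2 ^ w * b none - τ = ξ none
    rw [r0]
    field_simp
    ring
  · show 2 ^ w * b (some (c 0)) = ξ (some 0)
    rw [r1]
    field_simp
  · show ![2 ^ g1 * (b (some (c 1)) - eval b U), 2 ^ g2 * (b (some (c 2)) - eval b V)] j =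
      ξ (vt j)
    fin_cases j
    · show 2 ^ g1 * (b (some (c 1)) - eval b U) = ξ (vt 0)
      rw [r2]
      field_simp
      ring
    · show 2 ^ g2 * (b (some (c 2)) - eval b V) = ξ (vt 1)
      rw [r3]
      field_simp
      ring

/-- The rounded position. -/
theorem pos_rnd (F : Fam m J) (ω : F.Ω) (k : Fin m) :
    |F.x ω k - ((ptr F J ω).1 k : ℝ) / 2 ^ J| ≤ 1 / 2 ^ J := by
  have h1 : (ptr F J ω).1 k = ⌊2 ^ J * F.x ω k⌋ := rfl
  rw [h1]
  have h2 := Int.floor_le (2 ^ J * F.x ω k)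
  have h3 := Int.lt_floor_add_one (2 ^ J * F.x ω k)
  have hJ : (0 : ℝ) < 2 ^ J := by positivity
  have e : F.x ω k - (⌊2 ^ J * F.x ω k⌋ : ℝ) / 2 ^ J =
      (2 ^ J * F.x ω k - ⌊2 ^ J * F.x ω k⌋) / 2 ^ J := by field_simp
  rw [e, abs_div, abs_of_pos hJ]
  refine div_le_div_of_nonneg_right ?_ hJ.le
  rw [abs_le]
  constructor <;> linarith

theorem dvp {a b k : ℕ} (h : a ≤ b + k) : (1 : ℝ) / 2 ^ b ≤ 2 ^ k / 2 ^ a := by
  rw [div_le_div_iff₀ (by positivity) (by positivity), one_mul, ← pow_add]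
  exact pow_le_pow_right₀ (by norm_num) (by omega)

/-- **The ball label of `c 0` is near the position** in the whole window. -/
theorem g0Ball {F : Fam m J} {c : ℕ → Fin m} {w e h Dr D k : ℕ}
    {g : ℕ → ℕ} {κ κ' : ℝ} {B : F.Ω → Prop}
    {G : PtT F → ℕ → MvPolynomial (Option (Fin m)) ℝ}
    {H : LnT F → ℕ → MvPolynomial (Option (Fin m)) ℝ} (hc : Set.InjOn c (Set.Iio 4))
    (hD : 1 ≤ D) (hDr : D ≤ Dr) (hw : w ≤ J) (hch : ChOK F c 4 (fun _ => D) w w e g B G H)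
    (hR : RelvF F c 3 w w g Dr h κ B G) (hκ : κ ≤ κ') (hk : w ≤ g 0 + k) {B' : F.Ω → Prop}
    (hB' : Sub B' B) (hPB : κ' * Pe F.p B ≤ Pe F.p B') :
    ∃ B'' : F.Ω → Prop, Sub B'' B' ∧ Pe F.p B' / 2 ≤ Pe F.p B'' ∧ ∀ ω, B'' ω →
      ∀ b : Option (Fin m) → ℝ, |b none - F.t ω| ≤ 1 / 2 ^ w →
        |F.x ω (c 0) - eval b (G (ptr F J ω) 0)| ≤ 2 ^ (h + k + 3) / 2 ^ w := by
  have hc3 : Set.InjOn c (Set.Iio 3) := hc.mono (Set.Iio_subset_Iio (by omega))
  have hR' := (Pool.F5.relv_pre hc3 (fun y l => hch.depG y l) hR (i := 0) (by omega)).mono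
    (le_refl Dr) hκ
  have e1 : (1 : ℝ) / 2 ^ g 0 ≤ 2 ^ k / 2 ^ w := dvp hk
  have e2 : (1 : ℝ) / 2 ^ J ≤ 1 / 2 ^ w :=
    one_div_le_one_div_of_le (by positivity) (pow_le_pow_right₀ (by norm_num) hw)
  have e3 : (1 : ℝ) / 2 ^ w ≤ 2 ^ k / 2 ^ w :=
    div_le_div_of_nonneg_right (one_le_pow₀ (by norm_num)) (by positivity)
  have e4 : (2 : ℝ) ^ (k + 2) / 2 ^ w = 4 * (2 ^ k / 2 ^ w) := by
    rw [pow_add]
    ring
  have hdl : ∀ s : LnT F, (C (s.1.1 (c 0)) + C (s.1.2 (c 0)) * X none :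
      MvPolynomial (Option (Fin m)) ℝ).totalDegree ≤ 1 := fun s => by
    refine (totalDegree_add _ _).trans (max_le ?_ ((totalDegree_mul _ _).trans ?_))
    · rw [totalDegree_C]
      omega
    · rw [totalDegree_C, totalDegree_X]
  obtain ⟨B'', k1, k2, k3⟩ := hR' B' hB' hPB
    (fun y => G y 0 - C ((y.1 (c 0) : ℝ) / 2 ^ J))
    (fun s => H s 0 - (C (s.1.1 (c 0)) + C (s.1.2 (c 0)) * X none))
    (2 ^ (k + 2) / 2 ^ w)
    (fun y => (totalDegree_sub _ _).trans (max_le ((hch.degG y 0).trans hDr)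
      (by rw [totalDegree_C]; exact Nat.zero_le _)))
    (fun s => (totalDegree_sub _ _).trans (max_le ((hch.degH s 0).trans hDr)
      ((hdl s).trans (by omega))))
    (fun y b b' h0 h1 => by
      rw [map_sub, map_sub, hch.depG y 0 b b' h0 h1, eval_C, eval_C])
    (fun s b b' h0 h1 => by
      rw [map_sub, map_sub, hch.depH s 0 b b' h0 h1]
      simp only [map_add, map_mul, eval_C, eval_X, h0]) (by positivity)
    (fun ω hω => by
      have h2 := hch.pos ω (hB' ω hω) 0 (by omega)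
      have h3 := pos_rnd F ω (c 0)
      rw [map_sub, eval_C, e4]
      calc |eval (bt F ω) (G (ptr F J ω) 0) - ((ptr F J ω).1 (c 0) : ℝ) / 2 ^ J| =
            |(F.x ω (c 0) - ((ptr F J ω).1 (c 0) : ℝ) / 2 ^ J) -
              (F.x ω (c 0) - eval (bt F ω) (G (ptr F J ω) 0))| := by
            congr 1
            ring
        _ ≤ _ := abs_sub _ _
        _ ≤ 1 / 2 ^ J + 1 / 2 ^ g 0 := add_le_add h3 h2
        _ ≤ _ := by
            have : (0 : ℝ) < 2 ^ k / 2 ^ w := by positivity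
            linarith)
    (fun ω hω b hb => by
      have h2 := hch.agr ω (hB' ω hω) 0 (by omega) b hb
      have h3 := pos_rnd F ω (c 0)
      have h4 : |(F.t ω - b none) * F.d ω (c 0)| ≤ 1 / 2 ^ w := by
        rw [abs_mul]
        calc |F.t ω - b none| * |F.d ω (c 0)| ≤ 1 / 2 ^ w * 1 :=
              mul_le_mul (by rw [abs_sub_comm]; exact hb.1) (F.dir ω (c 0)) (abs_nonneg _)
                (by positivity)
          _ = _ := mul_one _
      simp only [map_sub, map_add, map_mul, eval_C, eval_X]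
      rw [e4]
      have e5 : (slam F w ω).1.1 (c 0) = F.u ω (c 0) := rfl
      have e6 : (slam F w ω).1.2 (c 0) = F.d ω (c 0) := rfl
      have e7 : F.x ω (c 0) = F.u ω (c 0) + F.t ω * F.d ω (c 0) := rfl
      rw [e5, e6]
      rw [e7] at h3
      rw [abs_le] at h2 h3 h4 ⊢
      constructor <;> nlinarith [h2.1, h2.2, h3.1, h3.2, h4.1, h4.2])
  refine ⟨B'', k1, k2, fun ω hω b hb => ?_⟩
  have h1 := k3 ω hω b ⟨hb, fun l hl => absurd hl (by omega)⟩
  have h3 := pos_rnd F ω (c 0)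
  rw [map_sub, eval_C] at h1
  have h5 : (2 : ℝ) ^ h * (2 ^ (k + 2) / 2 ^ w) = 2 ^ (h + k + 2) / 2 ^ w := by
    rw [show h + k + 2 = h + (k + 2) by ring, pow_add]
    ring
  have h6 : (2 : ℝ) ^ (h + k + 3) / 2 ^ w = 2 ^ (h + k + 2) / 2 ^ w + 2 ^ (h + k + 2) / 2 ^ w := by
    rw [pow_succ]
    ring
  have h7 : (1 : ℝ) / 2 ^ w ≤ 2 ^ (h + k + 2) / 2 ^ w :=
    div_le_div_of_nonneg_right (one_le_pow₀ (by norm_num)) (by positivity)
  rw [h5] at h1
  calc |F.x ω (c 0) - eval b (G (ptr F J ω) 0)| =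
        |(F.x ω (c 0) - ((ptr F J ω).1 (c 0) : ℝ) / 2 ^ J) -
          (eval b (G (ptr F J ω) 0) - ((ptr F J ω).1 (c 0) : ℝ) / 2 ^ J)| := by
        congr 1
        ring
    _ ≤ _ := abs_sub _ _
    _ ≤ 1 / 2 ^ J + 2 ^ (h + k + 2) / 2 ^ w := add_le_add h3 h1
    _ ≤ _ := by
        rw [h6]
        linarith

/-- **(P4) No relation in natural coordinates.** -/
theorem relvN (D : ℕ) : ∃ C : ℕ, ∀ {m J : ℕ} {F : Fam m J} {c : ℕ → Fin m}
    {w e h k Dr : ℕ} {g : ℕ → ℕ} {κ κ' : ℝ} {B B₁ : F.Ω → Prop}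
    {G : PtT F → ℕ → MvPolynomial (Option (Fin m)) ℝ}
    {H : LnT F → ℕ → MvPolynomial (Option (Fin m)) ℝ} {g1 g2 : ℕ}
    {U V : PtT F → MvPolynomial (Option (Fin m)) ℝ} {U' V' : LnT F → MvPolynomial (Option (Fin m)) ℝ},
    Set.InjOn c (Set.Iio 4) → 1 ≤ D → D ≤ Dr → ChOK F c 4 (fun _ => D) w w e g B G H →
    RelvF F c 3 w w g Dr h κ B G → Sub B₁ B → κ * Pe F.p B ≤ κ' * Pe F.p B₁ →
    AfP F c 1 w g1 B₁ U U' → AfP F c 2 w g2 B₁ V V' →
    -- the sides are comparable, up to `k`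
    (w ≤ g 0 + k ∧ g 0 ≤ w + k) → (g 1 ≤ g1 + k ∧ g1 ≤ g 1 + k) → (g 2 ≤ g2 + k ∧ g2 ≤ g 2 + k) →
    -- the ball label of `c 0` is near the position, the affine labels are near the ball labels
    (∀ ω, B₁ ω → ∀ b : Option (Fin m) → ℝ, |b none - F.t ω| ≤ 1 / 2 ^ w →
      |F.x ω (c 0) - eval b (G (ptr F J ω) 0)| ≤ 2 ^ k / 2 ^ w) →
    (∀ ω, B₁ ω → ∀ b, NBx c (G (ptr F J ω)) g w (F.t ω) 1 b →
      |eval b (U (ptr F J ω)) - eval b (G (ptr F J ω) 1)| ≤ 2 ^ k / 2 ^ g1) →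
    (∀ ω, B₁ ω → ∀ b, NBx c (G (ptr F J ω)) g w (F.t ω) 2 b →
      |eval b (V (ptr F J ω)) - eval b (G (ptr F J ω) 2)| ≤ 2 ^ k / 2 ^ g2) →
    -- the natural position is known to the point
    (∀ ω, B₁ ω → ∀ o, |FPn c w g1 g2 U V (ptr F J ω) o -
      nco c w g1 g2 (F.T1 w ω) (U (ptr F J ω)) (V (ptr F J ω)) (bt F ω) o| ≤ 1) →
    ∀ B' : F.Ω → Prop, Sub B' B₁ → κ' * Pe F.p B₁ ≤ Pe F.p B' →
    ∀ (Dx : PtT F → P4) (Dl : LnT F → P4) (M : ℝ), (∀ y, (Dx y).totalDegree ≤ D) →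
      (∀ s, (Dl s).totalDegree ≤ D) → 0 < M →
      (∀ ω, B' ω → |eval (nco c w g1 g2 (F.T1 w ω) (U (ptr F J ω)) (V (ptr F J ω)) (bt F ω))
        (Dx (ptr F J ω))| ≤ M) →
      (∀ ω, B' ω → ∀ b : V4, (∀ o, |b o - FPn c w g1 g2 U V (ptr F J ω) o| ≤ 1) →
        |eval b (Dx (ptr F J ω)) - eval b (Dl (slam F w ω))| ≤ M) →
      ∃ B'' : F.Ω → Prop, Sub B'' B' ∧ Pe F.p B' / 2 ≤ Pe F.p B'' ∧ ∀ ω, B'' ω →
        ∀ b : V4, (∀ o, |b o - FPn c w g1 g2 U V (ptr F J ω) o| ≤ 1) →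
          |eval b (Dx (ptr F J ω))| ≤ 2 ^ (h + C * (k + 1)) * M := by
  obtain ⟨c', hgr⟩ := grow_box D
  obtain ⟨c₀, D₁, hD₁, hdil⟩ := nbx_dil 4 (fun _ => D)
  refine ⟨c₀ + D₁ * (c₀ + D₁ * (c₀ + 2 * D₁ + 2) + 2) + c' + 2 * D, ?_⟩
  intro m J F c w e h k Dr g κ κ' B B₁ G H g1 g2 U V U' V' hc hD hDr hch hR hB₁ hκ hU hV h0 h1 h2
    hG0 hG1 hG2 hFP B' hB' hPB Dx Dl M hDx hDl hM hown hdif
  have hc3 : Set.InjOn c (Set.Iio 3) := hc.mono (Set.Iio_subset_Iio (by omega))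
  have hk1 : (1 : ℝ) ≤ 2 ^ k := one_le_pow₀ (by norm_num)
  have hk4 : (2 : ℝ) ^ (k + 2) = 4 * 2 ^ k := by
    rw [pow_add]
    ring
  -- the comparison of the sides
  have s0 : (2 : ℝ) ^ w / 2 ^ g 0 ≤ 2 ^ k := by
    rw [div_le_iff₀ (by positivity), ← pow_add]
    exact pow_le_pow_right₀ (by norm_num) (by omega)
  have s1 : (2 : ℝ) ^ g1 / 2 ^ g 1 ≤ 2 ^ k := by
    rw [div_le_iff₀ (by positivity), ← pow_add]
    exact pow_le_pow_right₀ (by norm_num) (by omega)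
  have s2 : (2 : ℝ) ^ g2 / 2 ^ g 2 ≤ 2 ^ k := by
    rw [div_le_iff₀ (by positivity), ← pow_add]
    exact pow_le_pow_right₀ (by norm_num) (by omega)
  have r0 : (1 : ℝ) / 2 ^ w ≤ 2 ^ k / 2 ^ g 0 := dvp (by omega)
  have r1 : (1 : ℝ) / 2 ^ g1 ≤ 2 ^ k / 2 ^ g 1 := dvp (by omega)
  have r2 : (1 : ℝ) / 2 ^ g2 ≤ 2 ^ k / 2 ^ g 2 := dvp (by omega)
  -- the size of the last two natural coordinates of the point
  have hfp : ∀ ω, B₁ ω → ∀ j, |FPn c w g1 g2 U V (ptr F J ω) (vt j)| ≤ 2 := by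
    intro ω hω j
    have a1 := hFP ω hω (vt j)
    have a2 : |nco c w g1 g2 (F.T1 w ω) (U (ptr F J ω)) (V (ptr F J ω)) (bt F ω) (vt j)| ≤ 1 := by
      fin_cases j
      · show |2 ^ g1 * (bt F ω (some (c 1)) - eval (bt F ω) (U (ptr F J ω)))| ≤ 1
        have := hU.pos ω hω
        rw [abs_mul, abs_of_pos (show (0 : ℝ) < 2 ^ g1 by positivity)]
        calc (2 : ℝ) ^ g1 * |F.x ω (c 1) - eval (bt F ω) (U (ptr F J ω))| ≤
              2 ^ g1 * (1 / 2 ^ g1) := mul_le_mul_of_nonneg_left this (by positivity)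
          _ = 1 := by field_simp
      · show |2 ^ g2 * (bt F ω (some (c 2)) - eval (bt F ω) (V (ptr F J ω)))| ≤ 1
        have := hV.pos ω hω
        rw [abs_mul, abs_of_pos (show (0 : ℝ) < 2 ^ g2 by positivity)]
        calc (2 : ℝ) ^ g2 * |F.x ω (c 2) - eval (bt F ω) (V (ptr F J ω))| ≤
              2 ^ g2 * (1 / 2 ^ g2) := mul_le_mul_of_nonneg_left this (by positivity)
          _ = 1 := by field_simp
    rw [abs_le] at a1 a2 ⊢
    constructor <;> linarith [a1.1, a1.2, a2.1, a2.2]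
  obtain ⟨M', hM'⟩ : ∃ M' : ℝ, M' = 2 ^ (c' + (k + 2) * D) * M := ⟨_, rfl⟩
  have hM'0 : 0 < M' := by
    rw [hM']
    positivity
  have hMM' : M ≤ M' := by
    rw [hM']
    exact le_mul_of_one_le_left hM.le (one_le_pow₀ (by norm_num))
  have hτ : ∀ ω, τP w (ptr F J ω) = F.T1 w ω := fun ω => rfl
  have hτ' : ∀ ω, τL (slam F w ω) = F.T1 w ω := fun ω => rfl
  obtain ⟨B'', k1, k2, k3⟩ := hR B' (fun ω hω => hB₁ ω (hB' ω hω)) (hκ.trans hPB)
    (fun y => psn c w g1 g2 (τP w y) (U y) (V y) (Dx y))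
    (fun s => psn c w g1 g2 (τL s) (U' s) (V' s) (Dl s)) M'
    (fun y => deg_psn (hU.dP y) (hV.dP y) ((hDx y).trans hDr))
    (fun s => deg_psn (hU.dL s) (hV.dL s) ((hDl s).trans hDr))
    (fun y => dep_psn (hU.eP y) (hV.eP y) _) (fun s => dep_psn (hU.eL s) (hV.eL s) _) hM'0
    (fun ω hω => by
      rw [eval_psn, hτ]
      exact (hown ω hω).trans hMM')
    (fun ω hω b hb => by
      have hω₁ := hB' ω hω
      rw [eval_psn, eval_psn, hτ, hτ', ← hU.cls ω hω₁, ← hV.cls ω hω₁, ← map_sub, hM']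
      have hb0 : |b none - F.t ω| ≤ 1 / 2 ^ w := hb.1
      refine hgr (k + 2) (Dx (ptr F J ω) - Dl (slam F w ω)) (FPn c w g1 g2 U V (ptr F J ω)) _ M
        ((totalDegree_sub _ _).trans (max_le (hDx _) (hDl _))) (fun x hx => by
          rw [map_sub]
          exact hdif ω hω x hx) (cases4 ?_ ?_ fun j => ?_)
      · show |2 ^ w * b none - F.T1 w ω - (2 ^ w * F.t ω - F.T1 w ω)| ≤ _
        have e1 : 2 ^ w * b none - F.T1 w ω - (2 ^ w * F.t ω - F.T1 w ω) =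
            2 ^ w * (b none - F.t ω) := by ring
        rw [e1, abs_mul, abs_of_pos (show (0 : ℝ) < 2 ^ w by positivity), hk4]
        have e2 : (2 : ℝ) ^ w * |b none - F.t ω| ≤ 2 ^ w * (1 / 2 ^ w) :=
          mul_le_mul_of_nonneg_left hb0 (by positivity)
        have e3 : (2 : ℝ) ^ w * (1 / 2 ^ w) = 1 := by field_simp
        linarith
      · have a1 := hFP ω hω₁ (some 0)
        have a1' : |FPn c w g1 g2 U V (ptr F J ω) (some 0) - 2 ^ w * F.x ω (c 0)| ≤ 1 := a1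
        have a2 := hb.2 0 (by norm_num)
        have a3 := hG0 ω hω₁ b hb0
        show |2 ^ w * b (some (c 0)) - FPn c w g1 g2 U V (ptr F J ω) (some 0)| ≤ _
        have a4 : |2 ^ w * (b (some (c 0)) - F.x ω (c 0))| ≤ 2 ^ k + 2 ^ k := by
          rw [abs_mul, abs_of_pos (show (0 : ℝ) < 2 ^ w by positivity)]
          have a5 : |b (some (c 0)) - F.x ω (c 0)| ≤ 1 / 2 ^ g 0 + 2 ^ k / 2 ^ w := by
            calc |b (some (c 0)) - F.x ω (c 0)| =
                  |(b (some (c 0)) - eval b (G (ptr F J ω) 0)) -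
                    (F.x ω (c 0) - eval b (G (ptr F J ω) 0))| := by
                  congr 1
                  ring
              _ ≤ _ := abs_sub _ _
              _ ≤ _ := add_le_add a2 a3
          refine (mul_le_mul_of_nonneg_left a5 (by positivity)).trans ?_
          have e4 : (2 : ℝ) ^ w * (1 / 2 ^ g 0 + 2 ^ k / 2 ^ w) = 2 ^ w / 2 ^ g 0 + 2 ^ k := by
            field_simp
          rw [e4]
          linarith
        rw [hk4]
        rw [abs_le] at a1' a4 ⊢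
        constructor <;> linarith [a1'.1, a1'.2, a4.1, a4.2]
      · have a1 := hfp ω hω₁ j
        have key : ∀ (gg l : ℕ) (W : MvPolynomial (Option (Fin m)) ℝ),
            |b (some (c l)) - eval b (G (ptr F J ω) l)| ≤ 1 / 2 ^ g l →
            |eval b W - eval b (G (ptr F J ω) l)| ≤ 2 ^ k / 2 ^ gg →
            (2 : ℝ) ^ gg / 2 ^ g l ≤ 2 ^ k →
            |2 ^ gg * (b (some (c l)) - eval b W)| ≤ 2 ^ k + 2 ^ k := by
          intro gg l W q1 q2 q3
          rw [abs_mul, abs_of_pos (show (0 : ℝ) < 2 ^ gg by positivity)]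
          have q4 : |b (some (c l)) - eval b W| ≤ 1 / 2 ^ g l + 2 ^ k / 2 ^ gg := by
            calc |b (some (c l)) - eval b W| =
                  |(b (some (c l)) - eval b (G (ptr F J ω) l)) -
                    (eval b W - eval b (G (ptr F J ω) l))| := by
                  congr 1
                  ring
              _ ≤ _ := abs_sub _ _
              _ ≤ _ := add_le_add q1 q2
          refine (mul_le_mul_of_nonneg_left q4 (by positivity)).trans ?_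
          have e4 : (2 : ℝ) ^ gg * (1 / 2 ^ g l + 2 ^ k / 2 ^ gg) = 2 ^ gg / 2 ^ g l + 2 ^ k := by
            field_simp
          rw [e4]
          linarith
        have a2 : |nco c w g1 g2 (F.T1 w ω) (U (ptr F J ω)) (V (ptr F J ω)) b (vt j)| ≤
            2 ^ k + 2 ^ k := by
          fin_cases j
          · exact key g1 1 _ (hb.2 1 (by norm_num)) (hG1 ω hω₁ b (hb.mono le_rfl (by omega))) s1
          · exact key g2 2 _ (hb.2 2 (by norm_num)) (hG2 ω hω₁ b (hb.mono le_rfl (by omega))) s2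
        rw [hk4]
        rw [abs_le] at a1 a2 ⊢
        constructor <;> linarith [a1.1, a1.2, a2.1, a2.2])
  refine ⟨B'', k1, k2, fun ω hω ξ hξ => ?_⟩
  have hω₁ : B₁ ω := hB' ω (k1 ω hω)
  have hωB : B ω := hB₁ ω hω₁
  obtain ⟨b, b0, b1, b2, b3, b4⟩ := nco_pt hc3 w g1 g2 (F.T1 w ω) (hU.eP (ptr F J ω))
    (hV.eP (ptr F J ω)) ξ
  have hbt : |b none - F.t ω| ≤ 1 / 2 ^ w := by
    have a1 := hξ none
    have a2 : FPn c w g1 g2 U V (ptr F J ω) none = 2 ^ w * F.t ω - F.T1 w ω := rfl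
    rw [a2] at a1
    rw [b1]
    have e1 : (ξ none + F.T1 w ω) / 2 ^ w - F.t ω = (ξ none - (2 ^ w * F.t ω - F.T1 w ω)) / 2 ^ w := by
      field_simp
      ring
    rw [e1, abs_div, abs_of_pos (show (0 : ℝ) < 2 ^ w by positivity)]
    exact div_le_div_of_nonneg_right a1 (by positivity)
  have hq0 : |b (some (c 0)) - eval b (G (ptr F J ω) 0)| ≤ 2 ^ (2 * k + 2) / 2 ^ g 0 := by
    have a1 := hξ (some 0)
    have a2 : |FPn c w g1 g2 U V (ptr F J ω) (some 0) - 2 ^ w * F.x ω (c 0)| ≤ 1 :=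
      hFP ω hω₁ (some 0)
    have a3 := hG0 ω hω₁ b hbt
    have a4 : |b (some (c 0)) - F.x ω (c 0)| ≤ 2 * (1 / 2 ^ w) := by
      have e1 : b (some (c 0)) - F.x ω (c 0) = (ξ (some 0) - 2 ^ w * F.x ω (c 0)) / 2 ^ w := by
        rw [b2]
        field_simp
      rw [e1, abs_div, abs_of_pos (show (0 : ℝ) < 2 ^ w by positivity), mul_one_div]
      refine div_le_div_of_nonneg_right ?_ (by positivity)
      rw [abs_le] at a1 a2 ⊢
      constructor <;> linarith [a1.1, a1.2, a2.1, a2.2]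
    have e2 : (2 : ℝ) ^ k / 2 ^ w = 2 ^ k * (1 / 2 ^ w) := by ring
    have e3 : (2 : ℝ) ^ (2 * k + 2) / 2 ^ g 0 = 4 * 2 ^ k * (2 ^ k / 2 ^ g 0) := by
      rw [show 2 * k + 2 = k + (k + 2) by ring, pow_add, hk4]
      ring
    have hw0 : (0 : ℝ) < 1 / 2 ^ w := by positivity
    calc |b (some (c 0)) - eval b (G (ptr F J ω) 0)| =
          |(b (some (c 0)) - F.x ω (c 0)) + (F.x ω (c 0) - eval b (G (ptr F J ω) 0))| := by
          congr 1
          ring
      _ ≤ _ := abs_add_le _ _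
      _ ≤ 2 * (1 / 2 ^ w) + 2 ^ k / 2 ^ w := add_le_add a4 a3
      _ ≤ 4 * 2 ^ k * (1 / 2 ^ w) := by
          rw [e2]
          nlinarith
      _ ≤ 4 * 2 ^ k * (2 ^ k / 2 ^ g 0) := mul_le_mul_of_nonneg_left r0 (by positivity)
      _ = _ := e3.symm
  obtain ⟨n₀, hn₀⟩ : ∃ n₀, n₀ = 2 * k + 2 := ⟨_, rfl⟩
  rw [← hn₀] at hq0
  obtain ⟨n₁, hn₁⟩ : ∃ n₁, n₁ = c₀ + n₀ * D₁ + n₀ := ⟨_, rfl⟩
  obtain ⟨n₂, hn₂⟩ : ∃ n₂, n₂ = c₀ + n₁ * D₁ + n₀ := ⟨_, rfl⟩
  have h01 : n₀ ≤ n₁ := by omega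
  have h12 : n₁ ≤ n₂ := by
    have : n₁ ≤ n₁ * D₁ := Nat.le_mul_of_pos_right _ hD₁
    omega
  have hup : ∀ {n n' a : ℕ} {x : ℝ}, n ≤ n' → |x| ≤ 2 ^ n / 2 ^ a → |x| ≤ 2 ^ n' / 2 ^ a :=
    fun {n n' a x} hn hx => hx.trans (div_le_div_of_nonneg_right
      (pow_le_pow_right₀ (by norm_num) hn) (by positivity))
  have key : ∀ (gg l n n' : ℕ) (W : MvPolynomial (Option (Fin m)) ℝ) (x : ℝ),
      b (some (c l)) = x / 2 ^ gg + eval b W → |x| ≤ 3 →
      |eval b (W - G (ptr F J ω) l)| ≤ 2 ^ n * (2 ^ k / 2 ^ gg) → (1 : ℝ) / 2 ^ gg ≤ 2 ^ k / 2 ^ g l →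
      n' = n + (2 * k + 2) →
      |b (some (c l)) - eval b (G (ptr F J ω) l)| ≤ 2 ^ n' / 2 ^ g l := by
    intro gg l n n' W x q1 q2 q3 q4 q5
    have hn1 : (1 : ℝ) ≤ 2 ^ n := one_le_pow₀ (by norm_num)
    have hg0 : (0 : ℝ) < 1 / 2 ^ gg := by positivity
    rw [map_sub] at q3
    have e1 : b (some (c l)) - eval b (G (ptr F J ω) l) =
        x / 2 ^ gg + (eval b W - eval b (G (ptr F J ω) l)) := by
      rw [q1]
      ring
    have e2 : |x / 2 ^ gg| ≤ 3 * (1 / 2 ^ gg) := by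
      rw [abs_div, abs_of_pos (show (0 : ℝ) < 2 ^ gg by positivity), mul_one_div]
      exact div_le_div_of_nonneg_right q2 (by positivity)
    have e3 : (2 : ℝ) ^ n * (2 ^ k / 2 ^ gg) = 2 ^ n * 2 ^ k * (1 / 2 ^ gg) := by ring
    have e4 : (1 : ℝ) ≤ 2 ^ n * 2 ^ k := by nlinarith
    have e5 : (2 : ℝ) ^ n' / 2 ^ g l = 4 * (2 ^ n * 2 ^ k) * (2 ^ k / 2 ^ g l) := by
      rw [q5, show n + (2 * k + 2) = n + k + (k + 2) by ring, pow_add, pow_add, hk4]
      ring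
    rw [e1]
    calc |x / 2 ^ gg + (eval b W - eval b (G (ptr F J ω) l))| ≤
          3 * (1 / 2 ^ gg) + 2 ^ n * 2 ^ k * (1 / 2 ^ gg) := by
          refine (abs_add_le _ _).trans (add_le_add e2 ?_)
          rw [← e3]
          exact q3
      _ ≤ 4 * (2 ^ n * 2 ^ k) * (1 / 2 ^ gg) := by nlinarith
      _ ≤ 4 * (2 ^ n * 2 ^ k) * (2 ^ k / 2 ^ g l) := mul_le_mul_of_nonneg_left q4 (by positivity)
      _ = _ := e5.symm
  have hx3 : ∀ j, |ξ (vt j)| ≤ 3 := by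
    intro j
    have a1 := hξ (vt j)
    have a2 := hfp ω hω₁ j
    rw [abs_le] at a1 a2 ⊢
    constructor <;> linarith [a1.1, a1.2, a2.1, a2.2]
  have hq1 : |b (some (c 1)) - eval b (G (ptr F J ω) 1)| ≤ 2 ^ n₁ / 2 ^ g 1 := by
    refine key g1 1 (c₀ + n₀ * D₁) n₁ _ _ b3 (hx3 0) ?_ r1 (by omega)
    refine hdil n₀ (by norm_num) (hc.mono (Set.Iio_subset_Iio (by omega))) (hch.degG (ptr F J ω))
      (hch.depG (ptr F J ω)) (i := 1) (Q := U (ptr F J ω) - G (ptr F J ω) 1)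
      (fun x x' q1 q2 => by
        rw [map_sub, map_sub, hU.eP (ptr F J ω) x x' q1 q2, hch.depG (ptr F J ω) 1 x x' q1 q2])
      ((totalDegree_sub _ _).trans (max_le ((hU.dP _).trans hD) (hch.degG _ 1))) (by positivity)
      (fun x hx => by
        rw [map_sub]
        exact hG1 ω hω₁ x hx) b hbt fun l hl => ?_
    have : l = 0 := by omega
    rw [this]
    exact hq0
  have hq2 : |b (some (c 2)) - eval b (G (ptr F J ω) 2)| ≤ 2 ^ n₂ / 2 ^ g 2 := by
    refine key g2 2 (c₀ + n₁ * D₁) n₂ _ _ b4 (hx3 1) ?_ r2 (by omega)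
    refine hdil n₁ (by norm_num) (hc.mono (Set.Iio_subset_Iio (by omega))) (hch.degG (ptr F J ω))
      (hch.depG (ptr F J ω)) (i := 2) (Q := V (ptr F J ω) - G (ptr F J ω) 2)
      (fun x x' q1 q2 => by
        rw [map_sub, map_sub, hV.eP (ptr F J ω) x x' q1 q2, hch.depG (ptr F J ω) 2 x x' q1 q2])
      ((totalDegree_sub _ _).trans (max_le ((hV.dP _).trans hD) (hch.degG _ 2))) (by positivity)
      (fun x hx => by
        rw [map_sub]
        exact hG2 ω hω₁ x hx) b hbt fun l hl => ?_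
    have : l = 0 ∨ l = 1 := by omega
    rcases this with rfl | rfl
    · exact hup h01 hq0
    · exact hq1
  have hfin := hdil n₂ (show 3 < 4 by norm_num) (hc.mono (Set.Iio_subset_Iio (by omega)))
    (hch.degG (ptr F J ω)) (hch.depG (ptr F J ω))
    (Q := psn c w g1 g2 (τP w (ptr F J ω)) (U (ptr F J ω)) (V (ptr F J ω)) (Dx (ptr F J ω)))
    (dep_psn (hU.eP _) (hV.eP _) _) (deg_psn (hU.dP _) (hV.dP _) (hDx _))
    (M := 2 ^ h * M') (by positivity) (k3 ω hω) b hbt fun l hl => by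
      have : l = 0 ∨ l = 1 ∨ l = 2 := by omega
      rcases this with rfl | rfl | rfl
      · exact hup (h01.trans h12) hq0
      · exact hup h12 hq1
      · exact hq2
  rw [eval_psn, hτ, b0] at hfin
  refine hfin.trans ?_
  rw [hM', ← mul_assoc, ← mul_assoc, ← pow_add, ← pow_add]
  refine mul_le_mul_of_nonneg_right (pow_le_pow_right₀ (by norm_num) ?_) hM.le
  obtain ⟨X, hX⟩ : ∃ X, X = k + 1 := ⟨_, rfl⟩
  have g0 : n₀ = 2 * X := by omega
  have g1' : n₁ ≤ X * (c₀ + 2 * D₁ + 2) := by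
    rw [hn₁, g0]
    nlinarith [Nat.zero_le (c₀ * k)]
  have g2' : n₂ ≤ X * (c₀ + D₁ * (c₀ + 2 * D₁ + 2) + 2) := by
    have q := Nat.mul_le_mul_right D₁ g1'
    rw [hn₂, g0]
    nlinarith [Nat.zero_le (c₀ * k)]
  have g3 := Nat.mul_le_mul_right D₁ g2'
  have g4 : c₀ + n₂ * D₁ + c' + (k + 2) * D ≤
      (c₀ + D₁ * (c₀ + D₁ * (c₀ + 2 * D₁ + 2) + 2) + c' + 2 * D) * X := by
    have q1 : c₀ ≤ c₀ * X := Nat.le_mul_of_pos_right _ (by omega)
    have q2 : c' ≤ c' * X := Nat.le_mul_of_pos_right _ (by omega)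
    have q3 : (k + 2) * D ≤ 2 * D * X := by
      rw [hX]
      nlinarith [Nat.zero_le (k * D)]
    calc c₀ + n₂ * D₁ + c' + (k + 2) * D ≤
          c₀ * X + X * (c₀ + D₁ * (c₀ + 2 * D₁ + 2) + 2) * D₁ + c' * X + 2 * D * X := by
          omega
      _ = _ := by ring
  rw [hX] at g4
  omega

end Pool.NVA91
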