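import Pool.Agent.H91.NVA.Aff
import Pool.Agent.H99.GEN.Gr

/-!
# The velocities are in the plane of the fan of the point

`vel_u`: the own velocity over an affine closed label. `velJ`: `VelJStmt`.
-/

set_option autoImplicit false

namespace Pool.NVA91

open Finset Real MvPolynomial
open Pool.Agent.H49.Ent Pool.Agent.H32.Dense Pool.STK Pool.KA Pool.KSAT Pool.K2S Pool.PB Pool.S6C
open Pool.GEN Pool.CHT Pool.ISO Pool.D2R Pool.NV24
open Pool.FLF (Fam.sub)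

variable {m J : ℕ}

theorem AfP.sub {F : Fam m J} {c : ℕ → Fin m} {i w P : ℕ} {A B : F.Ω → Prop}
    {U : PtT F → MvPolynomial (Option (Fin m)) ℝ} {U' : LnT F → MvPolynomial (Option (Fin m)) ℝ}
    (h : AfP F c i w P A U U') (hB : Sub B A) : AfP F c i w P B U U' :=
  ⟨h.dP, h.dL, h.eP, h.eL, fun ω hω => h.cls ω (hB ω hω), fun ω hω => h.pos ω (hB ω hω)⟩

/-- **The own velocity over an affine closed label**, on an event of mass at least `1/8`. -/
theorem vel_u (m : ℕ) : ∃ C : ℝ, 1 ≤ C ∧ ∀ {J : ℕ} {F : Fam m J} {c : ℕ → Fin m} {i w P : ℕ}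
    {A : F.Ω → Prop} {U : PtT F → MvPolynomial (Option (Fin m)) ℝ}
    {U' : LnT F → MvPolynomial (Option (Fin m)) ℝ} {θ : ℝ}, F.Tm θ → 0 ≤ θ →
    1 / 8 ≤ Pe F.p A → AfP F c i w P A U U' → w ≤ J → C * (θ + 1) ≤ ((J : ℝ) - w) * Real.log 2 →
    ∃ B : F.Ω → Prop, Sub B A ∧ Pe F.p A / 2 ≤ Pe F.p B ∧ ∀ ω, B ω →
      |F.d ω (c i) - ∑ o, bd F ω o * pc (U (ptr F J ω)) o| ≤
        Real.exp (C * (θ + 1)) * (2 ^ w / 2 ^ P) := by
  obtain ⟨C₁, hC₁, hv⟩ := Pool.GRD.vel_one m 1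
  refine ⟨9 * C₁, by linarith, ?_⟩
  intro J F c i w P A U U' θ hTm hθ hA hU hw hC
  have hl0 : 0 < Real.log 2 := Real.log_pos (by norm_num)
  have hl1 : Real.log 2 ≤ 7 / 10 := by
    have := Real.log_two_lt_d9
    linarith
  have hA0 : 0 < Pe F.p A := by linarith
  have hTm' := Pool.FLF.Tm_of_event hTm hA0
  obtain ⟨θ', hθ'⟩ : ∃ θ' : ℝ, θ' = (θ + Real.log 2) / Pe F.p A := ⟨_, rfl⟩
  rw [← hθ'] at hTm'
  have h0 : 0 ≤ θ' := by
    rw [hθ']
    exact div_nonneg (by linarith) hA0.le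
  have h8 : θ' ≤ 8 * (θ + Real.log 2) := by
    rw [hθ', div_le_iff₀ hA0]
    nlinarith
  have h9 : C₁ * (θ' + 1) ≤ 9 * C₁ * (θ + 1) := by nlinarith
  obtain ⟨B, k1, k2, k3⟩ := hv J F A hA0 w U' (c i) (1 / 2 ^ P) θ' hw hU.dL (by positivity) h0
    hTm' (h9.trans hC) (fun ω hω => by
      rw [← hU.cls ω hω]
      exact hU.pos ω hω)
  refine ⟨B, k1, k2, fun ω hω => ?_⟩
  have h1 := k3 ω hω
  have e1 : ∑ o, bd F ω o * eval (bt F ω) (pderiv o (U' (slam F w ω))) =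
      ∑ o, bd F ω o * pc (U (ptr F J ω)) o := by
    refine Finset.sum_congr rfl fun o _ => ?_
    rw [hU.cls ω (k1 ω hω), pc_pd (hU.dL _)]
  rw [e1] at h1
  refine h1.trans ?_
  calc Real.exp (C₁ * (θ' + 1)) * 2 ^ w * (1 / 2 ^ P) =
        Real.exp (C₁ * (θ' + 1)) * (2 ^ w / 2 ^ P) := by ring
    _ ≤ _ := mul_le_mul_of_nonneg_right (Real.exp_le_exp.2 h9) (by positivity)

/-- The sum of the slopes of an affine label of the place `1`. -/
theorem sum_pc1 {c : ℕ → Fin m} {H : MvPolynomial (Option (Fin m)) ℝ}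
    (h : H.totalDegree ≤ 1) (hd : DepC c 1 H) (v : Option (Fin m) → ℝ) :
    ∑ o, v o * pc H o = v none * pc H none + v (some (c 0)) * pc H (some (c 0)) := by
  classical
  rw [Fintype.sum_option, Finset.sum_eq_single (c 0)]
  · intro o _ ho
    rw [pc_dep h hd (fun l hl => by
      have : l = 0 := by omega
      rw [this]
      exact ho.symm), mul_zero]
  · intro h
    exact (h (mem_univ _)).elim

/-- The sum of the slopes of an affine label of the place `2`. -/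
theorem sum_pc2 {c : ℕ → Fin m} (hc : c 0 ≠ c 1) {H : MvPolynomial (Option (Fin m)) ℝ}
    (h : H.totalDegree ≤ 1) (hd : DepC c 2 H) (v : Option (Fin m) → ℝ) :
    ∑ o, v o * pc H o = v none * pc H none + v (some (c 0)) * pc H (some (c 0)) +
      v (some (c 1)) * pc H (some (c 1)) := by
  classical
  rw [Fintype.sum_option, ← Finset.sum_subset (Finset.subset_univ {c 0, c 1}),
    Finset.sum_pair hc]
  · ring
  · intro o _ ho
    rw [pc_dep h hd (fun l hl => by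
      have : l = 0 ∨ l = 1 := by omega
      rcases this with rfl | rfl
      · exact fun e => ho (by rw [← e]; simp)
      · exact fun e => ho (by rw [← e]; simp)), mul_zero]

/-- **(P3) The velocities are in the plane of the fan.** -/
theorem velJ (m : ℕ) : VelJStmt m := by
  obtain ⟨C, hC, hv⟩ := vel_u m
  refine ⟨C, hC, ?_⟩
  intro J F c A hA w w2 w3 g1 g2 h1 h2 U V U3 V2 U' V' U3' V2' θ hc hw hw2 hw3 hθ hU hV hU3 hV2
    hTm hJ
  classical
  have hne : c 0 ≠ c 1 := fun h => by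
    have := hc (Set.mem_Iio.2 (show 0 < 4 by norm_num)) (Set.mem_Iio.2 (show 1 < 4 by norm_num)) h
    omega
  have hl0 : 0 < Real.log 2 := Real.log_pos (by norm_num)
  have hwr : (w : ℝ) ≤ w3 := by exact_mod_cast hw.trans hw2
  have hw2r : (w2 : ℝ) ≤ w3 := by exact_mod_cast hw2
  have hJw : C * (θ + 1) ≤ ((J : ℝ) - w) * Real.log 2 :=
    hJ.trans (mul_le_mul_of_nonneg_right (by linarith) hl0.le)
  have hJw2 : C * (θ + 1) ≤ ((J : ℝ) - w2) * Real.log 2 :=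
    hJ.trans (mul_le_mul_of_nonneg_right (by linarith) hl0.le)
  obtain ⟨F', hF'⟩ : ∃ F' : Fam m J, F' = Fam.sub F A hA := ⟨_, rfl⟩
  obtain ⟨T, hT⟩ : ∃ T : (Fam.sub F A hA).Ω → Prop, T = fun _ => True := ⟨_, rfl⟩
  have hT1 : Pe (Fam.sub F A hA).p T = 1 := by
    rw [hT]
    have := (Fam.sub F A hA).isLaw.sum_one
    rw [Pe_eq]
    simpa using this
  have tr : ∀ {i w P : ℕ} {U : PtT F → MvPolynomial (Option (Fin m)) ℝ}
      {U' : LnT F → MvPolynomial (Option (Fin m)) ℝ}, AfP F c i w P A U U' →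
      AfP (Fam.sub F A hA) c i w P T U U' := fun h =>
    ⟨h.dP, h.dL, h.eP, h.eL, fun ω _ => h.cls ω.1 ω.2, fun ω _ => h.pos ω.1 ω.2⟩
  obtain ⟨B1, a1, b1, c1⟩ := hv hTm hθ (by rw [hT1]; norm_num) (tr hU) (by omega) hJw
  obtain ⟨B2, a2, b2, c2⟩ := hv hTm hθ (by linarith) (AfP.sub (tr hV) a1) (by omega) hJw
  have s2 : Sub B2 T := fun ω h => a1 ω (a2 ω h)
  obtain ⟨B3, a3, b3, c3⟩ := hv hTm hθ (by linarith) (AfP.sub (tr hU3) s2) hw3 hJ
  have s3 : Sub B3 T := fun ω h => s2 ω (a3 ω h)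
  obtain ⟨B4, a4, b4, c4⟩ := hv hTm hθ (by linarith) (AfP.sub (tr hV2) s3) (by omega) hJw2
  refine ⟨fun ω => ∃ h : A ω, B4 ⟨ω, h⟩, fun ω h => h.1, ?_, ?_⟩
  · have h5 : Pe F.p (fun ω => ∃ h : A ω, B4 ⟨ω, h⟩) = Pe F.p A * Pe (Fam.sub F A hA).p B4 :=
      Pool.FLF.sub_Pe hA B4
    rw [h5]
    nlinarith
  · rintro ω ⟨hωA, h4⟩
    have h3 := a4 _ h4
    have h2' := a3 _ h3
    have h1' := a2 _ h2'
    have q1 : |F.d ω (c 1) - ∑ o, bd F ω o * pc (U (ptr F J ω)) o| ≤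
        Real.exp (C * (θ + 1)) * (2 ^ w / 2 ^ g1) := c1 _ h1'
    have q2 : |F.d ω (c 2) - ∑ o, bd F ω o * pc (V (ptr F J ω)) o| ≤
        Real.exp (C * (θ + 1)) * (2 ^ w / 2 ^ g2) := c2 _ h2'
    have q3 : |F.d ω (c 1) - ∑ o, bd F ω o * pc (U3 (ptr F J ω)) o| ≤
        Real.exp (C * (θ + 1)) * (2 ^ w3 / 2 ^ h1) := c3 _ h3
    have q4 : |F.d ω (c 2) - ∑ o, bd F ω o * pc (V2 (ptr F J ω)) o| ≤
        Real.exp (C * (θ + 1)) * (2 ^ w2 / 2 ^ h2) := c4 _ h4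
    obtain ⟨E, hE⟩ : ∃ E : ℝ, E = Real.exp (C * (θ + 1)) := ⟨_, rfl⟩
    have hE0 : 0 < E := by
      rw [hE]
      exact Real.exp_pos _
    rw [← hE] at q1 q2 q3 q4 ⊢
    have n0 : bd F ω none = 1 := rfl
    have n1 : ∀ k, bd F ω (some k) = F.d ω k := fun _ => rfl
    rw [sum_pc1 (hU.dP _) (hU.eP _), n0, n1] at q1
    rw [sum_pc2 hne (hV.dP _) (hV.eP _), n0, n1, n1] at q2
    rw [sum_pc1 (hU3.dP _) (hU3.eP _), n0, n1] at q3
    rw [sum_pc2 hne (hV2.dP _) (hV2.eP _), n0, n1, n1] at q4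
    have D0 : DLn c w g1 g2 U' V' (slam F w ω) 0 = 2 ^ g1 / 2 ^ w * (F.d ω (c 1) -
        (1 * pc (U (ptr F J ω)) none + F.d ω (c 0) * pc (U (ptr F J ω)) (some (c 0)))) := by
      show 2 ^ g1 / 2 ^ w * (F.d ω (c 1) - ∑ o, vL (slam F w ω) o * pc (U' (slam F w ω)) o) = _
      rw [← hU.cls ω hωA, sum_pc1 (hU.dP _) (hU.eP _)]
      rfl
    have D1 : DLn c w g1 g2 U' V' (slam F w ω) 1 = 2 ^ g2 / 2 ^ w * (F.d ω (c 2) -
        (1 * pc (V (ptr F J ω)) none + F.d ω (c 0) * pc (V (ptr F J ω)) (some (c 0)) +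
          F.d ω (c 1) * pc (V (ptr F J ω)) (some (c 1)))) := by
      show 2 ^ g2 / 2 ^ w * (F.d ω (c 2) - ∑ o, vL (slam F w ω) o * pc (V' (slam F w ω)) o) = _
      rw [← hV.cls ω hωA, sum_pc2 hne (hV.dP _) (hV.eP _)]
      rfl
    have p1 : (0 : ℝ) < 2 ^ g1 / 2 ^ w := by positivity
    have p2 : (0 : ℝ) < 2 ^ g2 / 2 ^ w := by positivity
    refine ⟨fun j => ?_, ?_, ?_⟩
    · fin_cases j
      · show |DLn c w g1 g2 U' V' (slam F w ω) 0| ≤ E
        rw [D0, abs_mul, abs_of_pos p1]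
        refine (mul_le_mul_of_nonneg_left q1 p1.le).trans (le_of_eq ?_)
        field_simp
      · show |DLn c w g1 g2 U' V' (slam F w ω) 1| ≤ E
        rw [D1, abs_mul, abs_of_pos p2]
        refine (mul_le_mul_of_nonneg_left q2 p2.le).trans (le_of_eq ?_)
        field_simp
    · have e1 : DLn c w g1 g2 U' V' (slam F w ω) 0 -
          (Jn c w g1 g2 U V U3 V2 none (ptr F J ω) 0 +
            F.d ω (c 0) * Jn c w g1 g2 U V U3 V2 (some (c 0)) (ptr F J ω) 0) =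
          2 ^ g1 / 2 ^ w * (F.d ω (c 1) - (1 * pc (U3 (ptr F J ω)) none +
            F.d ω (c 0) * pc (U3 (ptr F J ω)) (some (c 0)))) := by
        rw [D0]
        simp only [Jn, Matrix.cons_val_zero]
        ring
      rw [e1, abs_mul, abs_of_pos p1]
      refine (mul_le_mul_of_nonneg_left q3 p1.le).trans (le_of_eq ?_)
      ring
    · obtain ⟨s, hs⟩ : ∃ s, s = pc (V2 (ptr F J ω)) (some (c 1)) -
          pc (V (ptr F J ω)) (some (c 1)) := ⟨_, rfl⟩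
      have e1 : DLn c w g1 g2 U' V' (slam F w ω) 1 -
          (Jn c w g1 g2 U V U3 V2 none (ptr F J ω) 1 +
            F.d ω (c 0) * Jn c w g1 g2 U V U3 V2 (some (c 0)) (ptr F J ω) 1) =
          2 ^ g2 / 2 ^ w * ((F.d ω (c 2) - (1 * pc (V2 (ptr F J ω)) none +
            F.d ω (c 0) * pc (V2 (ptr F J ω)) (some (c 0)) +
            F.d ω (c 1) * pc (V2 (ptr F J ω)) (some (c 1)))) +
            (F.d ω (c 1) - (1 * pc (U3 (ptr F J ω)) none +
            F.d ω (c 0) * pc (U3 (ptr F J ω)) (some (c 0)))) * s) := by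
        rw [D1, hs]
        simp only [Jn, Matrix.cons_val_one, Matrix.cons_val_fin_one]
        ring
      rw [e1, ← hs, abs_mul, abs_of_pos p2]
      have e2 : |(F.d ω (c 2) - (1 * pc (V2 (ptr F J ω)) none +
            F.d ω (c 0) * pc (V2 (ptr F J ω)) (some (c 0)) +
            F.d ω (c 1) * pc (V2 (ptr F J ω)) (some (c 1)))) +
            (F.d ω (c 1) - (1 * pc (U3 (ptr F J ω)) none +
            F.d ω (c 0) * pc (U3 (ptr F J ω)) (some (c 0)))) * s| ≤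
          E * (2 ^ w2 / 2 ^ h2) + E * (2 ^ w3 / 2 ^ h1) * |s| := by
        refine (abs_add_le _ _).trans (add_le_add q4 ?_)
        rw [abs_mul]
        exact mul_le_mul_of_nonneg_right q3 (abs_nonneg _)
      refine (mul_le_mul_of_nonneg_left e2 p2.le).trans (le_of_eq ?_)
      ring

end Pool.NVA91
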