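import Pool.Agent.H24.NV.S
import Pool.Agent.H99.D2.Hev
import Pool.Agent.H45.EXA.Nbc
import Pool.Agent.H6.OWN.Dps

/-!
# Separated values on the fibres

`fre_one`: at one family, from the entropies on the parts. `fre_act`: the own slope of an active
coordinate on the fibres of the point. `fre_tm`: the natural time on the fibres of the line cell.
-/

set_option autoImplicit false

namespace Pool.NVA91

open Finset Real MvPolynomial
open Pool.Agent.H49.Ent Pool.Agent.H32.Dense Pool.STK Pool.KA Pool.KSAT Pool.K2S Pool.PB Pool.S6C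
open Pool.GEN Pool.CHT Pool.ISO Pool.D2R Pool.NV24
open Pool.FLF (Fam.sub)

variable {m : ℕ}

/-- Smaller separation. -/
theorem fre_mono {Ω ζ : Type} [Fintype Ω] {p : Ω → ℝ} {A : Ω → Prop} {Z : Ω → ζ} {κ : Ω → ℝ}
    {β β' : ℝ} {D D' : ℕ} {κ₀ κ₁ : ℝ} (hp : IsLaw p) (h : Fre p A Z κ β D κ₀) (hβ : β' ≤ β)
    (hD : D' ≤ D) (hκ : κ₀ ≤ κ₁) : Fre p A Z κ β' D' κ₁ := by
  intro E hE hP
  obtain ⟨B, h1, h2, h3⟩ := h E hE ((mul_le_mul_of_nonneg_right hκ (Pe_nonneg hp A)).trans hP)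
  refine ⟨B, h1, h2, fun ω hω => ?_⟩
  obtain ⟨ν, k1, k2⟩ := h3 ω hω
  exact ⟨ν, fun i hi => k1 i (hi.trans hD), fun i hi j hj hij =>
    hβ.trans (k2 i (hi.trans hD) j (hj.trans hD) hij)⟩

/-- **Separated values on the fibres**, at one family. -/
theorem fre_one {Ω ζ : Type} [Fintype Ω] {p : Ω → ℝ} (hp : IsLaw p) {A : Ω → Prop} {Z : Ω → ζ}
    {κ : Ω → ℝ} {β : ℝ} (hβ : 0 < β) {D : ℕ} {κ₀ : ℝ}
    (h : ∀ E : Ω → Prop, Sub E A → κ₀ / 2 * Pe p A ≤ Pe p E → 0 < Pe p E →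
      Real.log (2 * D + 1) < CH (Pool.Agent.H49.Ent.cond p E True) (fun ω => ⌊κ ω / β⌋) Z) :
    Fre p A Z κ β D κ₀ := by
  intro E hE hP
  rcases (Pe_nonneg hp E).eq_or_lt with h0 | h0
  · refine ⟨fun _ => False, fun _ h => h.elim, ?_, fun _ h => h.elim⟩
    rw [← h0, zero_div]
    exact Pe_nonneg hp _
  · obtain ⟨B, h1, h2, h3⟩ := Pool.CR99.fib_ev hp Z κ hβ D (c₀ := 1 / 2) (by norm_num) h0
      (fun E' hE' hP' => h E' (fun ω hω => hE ω (hE' ω hω)) (by linarith) (by linarith))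
    exact ⟨B, h1, by linarith, h3⟩

/-- **(P1) The own slope of an active coordinate** is separated on the fibres of the point. -/
theorem fre_act {S : PCl m} {y : Fin m} (hA : Pool.MIC6.ActF S y) (D : ℕ) (γ κ₀ : ℝ) (hγ : 0 < γ)
    (hκ₀ : 0 < κ₀) : Bas S (fun J F A => Fre F.p A (ptr F J) (fun ω => F.d ω y)
      (1 / 2 ^ ⌊γ * J⌋₊) D κ₀) := by
  obtain ⟨c, hc, h1⟩ := hA γ hγ
  obtain ⟨N, hN⟩ := exists_nat_gt (Real.log (2 * D + 1) / c)
  refine Bas.mono N (Pool.GRW.bas_part h1 (c := 2 / κ₀) (by positivity)) ?_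
  intro J hJ F A hh
  refine fre_one F.isLaw (by positivity) fun E hE hP _ => ?_
  have h2 := hh E hE (by
    rw [div_mul_eq_mul_div, le_div_iff₀ hκ₀]
    linarith)
  have e1 : (fun ω => ⌊F.d ω y / (1 / 2 ^ ⌊γ * J⌋₊)⌋) = fun ω => F.D ⌊γ * J⌋₊ ω y := by
    funext ω
    show _ = ⌊2 ^ ⌊γ * J⌋₊ * F.d ω y⌋
    rw [div_div_eq_mul_div, div_one, mul_comm]
  rw [e1]
  refine lt_of_lt_of_le ?_ h2
  have h3 : (N : ℝ) ≤ J := by exact_mod_cast hJ
  rw [div_lt_iff₀ hc] at hN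
  have h4 := mul_le_mul_of_nonneg_left h3 hc.le
  linarith

/-- The digits of the natural time. -/
theorem tn_fl {J : ℕ} (F : Fam m J) {W L : ℕ} (h : W + L ≤ J) (ω : F.Ω) :
    (⌊Tn F W ω / (1 / 2 ^ L)⌋ : ℤ) + 2 ^ L * (F.T1 W ω : ℤ) = (F.T1 (W + L) ω : ℤ) := by
  have h1 : Tn F W ω / (1 / 2 ^ L) =
      (F.T ω : ℝ) / ((2 ^ (J - (W + L)) : ℕ) : ℝ) - ((2 ^ L * (F.T1 W ω : ℤ) : ℤ) : ℝ) := by
    unfold Tn Fam.t
    have e1 : (2 : ℝ) ^ J = 2 ^ (J - (W + L)) * (2 ^ W * 2 ^ L) := by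
      rw [← pow_add, ← pow_add]
      congr 1
      omega
    push_cast
    rw [e1]
    field_simp
  rw [h1, Int.floor_sub_intCast, sub_add_cancel]
  unfold Fam.T1
  rw [← Nat.floor_div_eq_div (K := ℝ), Int.natCast_floor_eq_floor (by positivity)]

/-- **(P1) The natural time** is separated on the fibres of the line cell. -/
theorem fre_tmn {S : PCl m} {w : ℝ} (hT : Pool.GRW.TmWn S w) (D : ℕ) (γ κ₀ : ℝ) (hw0 : 0 ≤ w)
    (hw1 : w < 1) (hγ : 0 < γ) (hκ₀ : 0 < κ₀) :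
    Bas S (fun J F A => Fre F.p A (slam F ⌊w * J⌋₊) (Tn F ⌊w * J⌋₊) (1 / 2 ^ ⌊γ * J⌋₊) D κ₀) := by
  have hl0 : 0 < Real.log 2 := Real.log_pos (by norm_num)
  have hl1 : Real.log 2 ≤ 1 := by
    have := Real.log_two_lt_d9
    linarith
  obtain ⟨γ', hγ'⟩ : ∃ γ', γ' = min γ (1 - w) := ⟨_, rfl⟩
  have hγ0 : 0 < γ' := by
    rw [hγ']
    exact lt_min hγ (by linarith)
  have hγγ : γ' ≤ γ := by
    rw [hγ']
    exact min_le_left _ _
  have hγw : w + γ' ≤ 1 := by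
    have : γ' ≤ 1 - w := by
      rw [hγ']
      exact min_le_right _ _
    linarith
  obtain ⟨c, hc⟩ : ∃ c, c = γ' * Real.log 2 / 2 := ⟨_, rfl⟩
  have hc0 : 0 < c := by
    rw [hc]
    positivity
  have h1 := hT c hc0
  obtain ⟨N, hN⟩ := exists_nat_gt ((Real.log (2 * D + 1) + 1) / c)
  refine Bas.mono N (Pool.GRW.bas_part h1 (c := 2 / κ₀) (by positivity)) ?_
  intro J hJ F A hh
  have hJ0 : (0 : ℝ) ≤ J := Nat.cast_nonneg J
  obtain ⟨W, hW⟩ : ∃ W, W = ⌊w * J⌋₊ := ⟨_, rfl⟩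
  obtain ⟨L, hL⟩ : ∃ L, L = ⌊γ' * J⌋₊ := ⟨_, rfl⟩
  rw [← hW]
  have hWL : W + L ≤ J := by
    have e1 : (W : ℝ) ≤ w * J := by
      rw [hW]
      exact Nat.floor_le (by positivity)
    have e2 : (L : ℝ) ≤ γ' * J := by
      rw [hL]
      exact Nat.floor_le (by positivity)
    have e3 : ((W + L : ℕ) : ℝ) ≤ J := by
      push_cast
      nlinarith
    exact_mod_cast e3
  have key : Fre F.p A (slam F W) (Tn F W) (1 / 2 ^ L) D κ₀ := by
    refine fre_one F.isLaw (by positivity) fun E hE hP hE0 => ?_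
    obtain ⟨-, h2⟩ := hh E hE (by
      rw [div_mul_eq_mul_div, le_div_iff₀ hκ₀]
      linarith)
    have h3 := h2 L (by rw [← hW]; exact hWL)
    rw [← hW] at h3
    have hq := (isLaw_cond F.isLaw hE0).nonneg
    have h4 : CH (Pool.Agent.H49.Ent.cond F.p E True) (F.T1 (W + L)) (slam F W) ≤
        CH (Pool.Agent.H49.Ent.cond F.p E True) (fun ω => ⌊Tn F W ω / (1 / 2 ^ L)⌋)
          (slam F W) := by
      refine CH_mono_left hq fun ω ω' _ _ h => ?_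
      have q1 := (Prod.ext_iff.mp h).1
      have q2 : F.T1 W ω = F.T1 W ω' := congrArg (fun s => s.2.2) (Prod.ext_iff.mp h).2
      have q3 := tn_fl F hWL ω
      have q4 := tn_fl F hWL ω'
      simp only at q1
      rw [q1, q2, q4] at q3
      exact_mod_cast q3.symm
    refine lt_of_lt_of_le ?_ (h3.trans h4)
    have h5 : (N : ℝ) ≤ J := by exact_mod_cast hJ
    rw [div_lt_iff₀ hc0] at hN
    have h6 := mul_le_mul_of_nonneg_left h5 hc0.le
    have h7 : γ' * J - 1 ≤ L := by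
      have := Nat.lt_floor_add_one (γ' * J)
      rw [← hL] at this
      linarith
    have h8 := mul_le_mul_of_nonneg_right h7 hl0.le
    have h9 : (γ' * J - 1) * Real.log 2 = 2 * c * J - Real.log 2 := by
      rw [hc]
      ring
    rw [h9] at h8
    linarith
  refine fre_mono F.isLaw key ?_ le_rfl le_rfl
  refine one_div_le_one_div_of_le (by positivity) (pow_le_pow_right₀ (by norm_num) ?_)
  rw [hL]
  exact Nat.floor_le_floor (mul_le_mul_of_nonneg_right hγγ hJ0)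

theorem fre_tm {S : PCl m} {C₀ : ℝ} (hT : TmC S C₀) (D : ℕ) (w γ κ₀ : ℝ) (hw0 : 0 ≤ w)
    (hw1 : w < 1) (hγ : 0 < γ) (hκ₀ : 0 < κ₀) :
    Bas S (fun J F A => Fre F.p A (slam F ⌊w * J⌋₊) (Tn F ⌊w * J⌋₊) (1 / 2 ^ ⌊γ * J⌋₊) D κ₀) :=
  fre_tmn (Pool.GRW.TmC.wn hT w) D γ κ₀ hw0 hw1 hγ hκ₀

end Pool.NVA91
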