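import Mathlib

/-!
# The numbers of one scale

`nv_num`: the inequalities between the numbers of digits, from real inequalities.
-/

set_option autoImplicit false

namespace Pool.NVA91

/-- **The numbers of one scale.** -/
theorem nv_num {C J : ℕ} {t q s v μ ν κ Eb l1' : ℝ} {L : ℕ → ℝ} {g g' : ℕ → ℕ} (hq : 0 < q)
    (hs : 1 < s) (hv : s * v = (s - 1) / 2) (hv0 : 0 ≤ v) (hv1 : v ≤ 1) (ht : 0 < t)
    (ht1 : t + 2 * q < 1) (hEb : 0 ≤ Eb) (hμ : 0 < μ) (hμ1 : μ ≤ 1 / 8)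
    (hμs : μ ≤ (s - 1) / 100) (hμν : 8 * ((C : ℝ) + 1) * μ ≤ ν) (hμκ : 8 * ((C : ℝ) + 1) * μ ≤ κ)
    (hν1 : ν ≤ 1) (hνs : ν ≤ (s - 1) / 8) (hνv : ν ≤ (s - 1) * v / 2)
    (hL0 : L 0 = t) (hL1 : q ≤ L 1) (hL2 : q ≤ L 2) (hroom : ∀ l ≤ 3, L l + Eb + 2 * q < 1)
    (hg : ∀ l ≤ 3, (L l - μ * q) * J ≤ g l ∧ (g l : ℝ) ≤ L l * J)
    (hg' : (g' 1 : ℝ) ≤ l1' * J) (hl1' : l1' ≤ L 1 + s * v * q + μ * q)
    (hJ : 4 ≤ μ * q * J) :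
    (⌊t * J⌋₊ ≤ ⌊(t + v * q) * J⌋₊ ∧ ⌊(t + v * q) * J⌋₊ ≤ ⌊(t + q) * J⌋₊ ∧
      ⌊(t + q) * J⌋₊ ≤ J) ∧
    ⌊μ * q * J⌋₊ ≤ ⌊4 * (μ * q) * J⌋₊ ∧
    (⌊t * J⌋₊ ≤ g 0 + ⌊4 * (μ * q) * J⌋₊ ∧ g 0 ≤ ⌊t * J⌋₊ + ⌊4 * (μ * q) * J⌋₊) ∧
    (⌊(L 1 - 2 * (μ * q)) * J⌋₊ ≤ g 1 ∧
      g 1 ≤ ⌊(L 1 - 2 * (μ * q)) * J⌋₊ + ⌊4 * (μ * q) * J⌋₊) ∧
    (⌊(L 2 - 2 * (μ * q)) * J⌋₊ ≤ g 2 ∧
      g 2 ≤ ⌊(L 2 - 2 * (μ * q)) * J⌋₊ + ⌊4 * (μ * q) * J⌋₊) ∧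
    ⌊(L 2 - 2 * (μ * q)) * J⌋₊ ≤ ⌊(L 2 + s * v * q - 2 * (μ * q)) * J⌋₊ ∧
    (∀ l ≤ 3, ⌊(Eb + μ * q + μ * q) * J⌋₊ + g l + ⌊ν * q * J⌋₊ ≤ J) ∧
    ⌊(L 1 - 2 * (μ * q)) * J⌋₊ + ⌊(t + q) * J⌋₊ + ⌊ν * q * J⌋₊ ≤
      ⌊t * J⌋₊ + ⌊(L 1 + s * q - 2 * (μ * q)) * J⌋₊ ∧
    ⌊(L 2 - 2 * (μ * q)) * J⌋₊ + ⌊(t + v * q) * J⌋₊ + ⌊ν * q * J⌋₊ ≤
      ⌊t * J⌋₊ + ⌊(L 2 + s * v * q - 2 * (μ * q)) * J⌋₊ ∧
    g' 1 + ⌊(t + q) * J⌋₊ + ⌊ν * q * J⌋₊ ≤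
      ⌊t * J⌋₊ + ⌊(L 1 + s * q - 2 * (μ * q)) * J⌋₊ ∧
    C * (⌊4 * (μ * q) * J⌋₊ + 1) ≤ ⌊ν * q * J⌋₊ ∧
    J ≤ ⌈1 / (μ * q)⌉₊ * ⌊4 * (μ * q) * J⌋₊ ∧
    C * (⌊4 * (μ * q) * J⌋₊ + 1) ≤ ⌊κ * q * J⌋₊ := by
  have hC : (0 : ℝ) ≤ C := Nat.cast_nonneg C
  have hJ0 : (0 : ℝ) ≤ J := Nat.cast_nonneg J
  obtain ⟨X, hX⟩ : ∃ X : ℝ, X = q * J := ⟨_, rfl⟩
  have hX0 : 0 ≤ X := by rw [hX]; positivity
  obtain ⟨M, hM⟩ : ∃ M : ℝ, M = μ * X := ⟨_, rfl⟩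
  have hM4 : 4 ≤ M := by
    rw [hM, hX]
    linarith
  have hvq : v * q ≤ q := mul_le_of_le_one_left hq.le hv1
  have hvq0 : 0 ≤ v * q := by positivity
  -- products
  have m1 : 8 * ((C : ℝ) + 1) * M ≤ ν * X := by
    have := mul_le_mul_of_nonneg_right hμν hX0
    rw [hM]
    linarith
  have m2 : 8 * ((C : ℝ) + 1) * M ≤ κ * X := by
    have := mul_le_mul_of_nonneg_right hμκ hX0
    rw [hM]
    linarith
  have m3 : 100 * M ≤ (s - 1) * X := by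
    have := mul_le_mul_of_nonneg_right hμs hX0
    rw [hM]
    linarith
  have m4 : ν * X ≤ (s - 1) * X / 8 := by
    have := mul_le_mul_of_nonneg_right hνs hX0
    linarith
  have m5 : 2 * (ν * X) ≤ (s - 1) * v * X := by
    have := mul_le_mul_of_nonneg_right hνv hX0
    linarith
  have m6 : 8 * M ≤ ν * X := by
    have h1 : 0 ≤ (C : ℝ) * M := mul_nonneg hC (by linarith)
    have h2 : 8 * ((C : ℝ) + 1) * M = 8 * ((C : ℝ) * M) + 8 * M := by ring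
    linarith
  have m7 : s * v * X = (s - 1) * X / 2 := by rw [hv]; ring
  have hs1 : 0 < s - 1 := by linarith
  -- the floors
  have fl : ∀ x : ℝ, 0 ≤ x → (⌊x⌋₊ : ℝ) ≤ x ∧ x < ⌊x⌋₊ + 1 := fun x hx =>
    ⟨Nat.floor_le hx, Nat.lt_floor_add_one x⟩
  have e1 : μ * q * J = M := by rw [hM, hX]; ring
  have e2 : 4 * (μ * q) * J = 4 * M := by rw [hM, hX]; ring
  have e3 : ν * q * J = ν * X := by rw [hX]; ring
  have e4 : κ * q * J = κ * X := by rw [hX]; ring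
  have e5 : (t + q) * J = t * J + X := by rw [hX]; ring
  have e6 : (t + v * q) * J = t * J + v * X := by rw [hX]; ring
  have e7 : (L 1 - 2 * (μ * q)) * J = L 1 * J - 2 * M := by rw [hM, hX]; ring
  have e8 : (L 2 - 2 * (μ * q)) * J = L 2 * J - 2 * M := by rw [hM, hX]; ring
  have e9 : (L 1 + s * q - 2 * (μ * q)) * J = L 1 * J + s * X - 2 * M := by rw [hM, hX]; ring
  have e10 : (L 2 + s * v * q - 2 * (μ * q)) * J = L 2 * J + s * v * X - 2 * M := by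
    rw [hM, hX]; ring
  have e11 : (Eb + μ * q + μ * q) * J = Eb * J + 2 * M := by rw [hM, hX]; ring
  have hvX : 0 ≤ v * X := by positivity
  have hvX1 : v * X ≤ X := mul_le_of_le_one_left hX0 hv1
  have hCM0 : 0 ≤ (C : ℝ) * M := mul_nonneg hC (by linarith)
  have m8 : 8 * ((C : ℝ) + 1) * M = 8 * ((C : ℝ) * M) + 8 * M := by ring
  rw [m8] at m1 m2
  have hMX : 8 * M ≤ X := by
    have := mul_le_mul_of_nonneg_right hμ1 hX0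
    rw [hM]
    linarith
  have htJ : 0 < t * J := by
    have : 0 < (J : ℝ) := by
      by_contra hcon
      have : (J : ℝ) = 0 := le_antisymm (not_lt.1 hcon) hJ0
      rw [this, mul_zero] at hJ
      linarith
    positivity
  have hL1J : X ≤ L 1 * J := by rw [hX]; exact mul_le_mul_of_nonneg_right hL1 hJ0
  have hL2J : X ≤ L 2 * J := by rw [hX]; exact mul_le_mul_of_nonneg_right hL2 hJ0
  have hsX : 0 ≤ s * X := mul_nonneg (by linarith) hX0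
  have hνX : 0 ≤ ν * X := by linarith
  rw [e1, e2, e3, e4, e5, e6, e7, e8, e9, e10, e11]
  obtain ⟨w, hw⟩ : ∃ w, w = ⌊t * J⌋₊ := ⟨_, rfl⟩
  obtain ⟨w2, hw2⟩ : ∃ w2, w2 = ⌊t * J + v * X⌋₊ := ⟨_, rfl⟩
  obtain ⟨w3, hw3⟩ : ∃ w3, w3 = ⌊t * J + X⌋₊ := ⟨_, rfl⟩
  obtain ⟨k, hk⟩ : ∃ k, k = ⌊4 * M⌋₊ := ⟨_, rfl⟩
  obtain ⟨h, hh⟩ : ∃ h, h = ⌊M⌋₊ := ⟨_, rfl⟩
  obtain ⟨n, hn⟩ : ∃ n, n = ⌊ν * X⌋₊ := ⟨_, rfl⟩
  obtain ⟨P1, hP1⟩ : ∃ P1, P1 = ⌊L 1 * J - 2 * M⌋₊ := ⟨_, rfl⟩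
  obtain ⟨P2, hP2⟩ : ∃ P2, P2 = ⌊L 2 * J - 2 * M⌋₊ := ⟨_, rfl⟩
  obtain ⟨h1, hh1⟩ : ∃ h1, h1 = ⌊L 1 * J + s * X - 2 * M⌋₊ := ⟨_, rfl⟩
  obtain ⟨h2, hh2⟩ : ∃ h2, h2 = ⌊L 2 * J + s * v * X - 2 * M⌋₊ := ⟨_, rfl⟩
  obtain ⟨e, he⟩ : ∃ e, e = ⌊Eb * J + 2 * M⌋₊ := ⟨_, rfl⟩
  obtain ⟨lam, hlam⟩ : ∃ lam, lam = ⌊κ * X⌋₊ := ⟨_, rfl⟩
  obtain ⟨a1, a2⟩ := fl (t * J) htJ.le
  obtain ⟨a3, a4⟩ := fl (t * J + v * X) (by linarith)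
  obtain ⟨a5, a6⟩ := fl (t * J + X) (by linarith)
  obtain ⟨a7, a8⟩ := fl (4 * M) (by linarith)
  obtain ⟨a9, a10⟩ := fl (ν * X) hνX
  obtain ⟨a11, a12⟩ := fl (L 1 * J - 2 * M) (by linarith)
  obtain ⟨a13, a14⟩ := fl (L 2 * J - 2 * M) (by linarith)
  obtain ⟨a15, a16⟩ := fl (L 1 * J + s * X - 2 * M) (by linarith)
  obtain ⟨a17, a18⟩ := fl (L 2 * J + s * v * X - 2 * M) (by rw [m7]; linarith)
  obtain ⟨a19, a20⟩ := fl (Eb * J + 2 * M) (by positivity)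
  obtain ⟨a21, a22⟩ := fl (κ * X) (by linarith)
  rw [← hw, ← hw2, ← hw3, ← hk, ← hh, ← hn, ← hP1, ← hP2, ← hh1, ← hh2, ← he, ← hlam]
  rw [← hw] at a1 a2
  rw [← hw2] at a3 a4
  rw [← hw3] at a5 a6
  rw [← hk] at a7 a8
  rw [← hn] at a9 a10
  rw [← hP1] at a11 a12
  rw [← hP2] at a13 a14
  rw [← hh1] at a15 a16
  rw [← hh2] at a17 a18
  rw [← he] at a19 a20
  rw [← hlam] at a21 a22
  have hg0 := hg 0 (by norm_num)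
  have hg1 := hg 1 (by norm_num)
  have hg2 := hg 2 (by norm_num)
  have q0 : (t - μ * q) * J = t * J - M := by rw [hM, hX]; ring
  have q1 : (L 1 - μ * q) * J = L 1 * J - M := by rw [hM, hX]; ring
  have q2 : (L 2 - μ * q) * J = L 2 * J - M := by rw [hM, hX]; ring
  rw [hL0, q0] at hg0
  rw [q1] at hg1
  rw [q2] at hg2
  have hkC : (C : ℝ) * (k + 1) ≤ 4 * (C * M) + C := by
    have h1 := mul_le_mul_of_nonneg_left a7 hC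
    have h2 : (C : ℝ) * (4 * M) = 4 * (C * M) := by ring
    rw [h2] at h1
    linarith
  have hCM : (C : ℝ) ≤ C * M := le_mul_of_one_le_right hC (by linarith)
  refine ⟨⟨?_, ?_, ?_⟩, ?_, ⟨?_, ?_⟩, ⟨?_, ?_⟩, ⟨?_, ?_⟩, ?_, fun l hl => ?_, ?_, ?_, ?_, ?_, ?_, ?_⟩
  · rw [hw, hw2]
    exact Nat.floor_le_floor (by linarith)
  · rw [hw3, hw2]
    exact Nat.floor_le_floor (by linarith)
  · have : (w3 : ℝ) ≤ J := by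
      refine a5.trans ?_
      rw [← e5]
      have h1 : (t + q) * J ≤ 1 * J := mul_le_mul_of_nonneg_right (by linarith) hJ0
      linarith
    exact_mod_cast this
  · rw [hh, hk]
    exact Nat.floor_le_floor (by linarith)
  · have : (w : ℝ) ≤ ((g 0 + k : ℕ) : ℝ) := by push_cast; linarith [hg0.1]
    exact_mod_cast this
  · have : ((g 0 : ℕ) : ℝ) ≤ ((w + k : ℕ) : ℝ) := by push_cast; linarith [hg0.2]
    exact_mod_cast this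
  · have : (P1 : ℝ) ≤ g 1 := by linarith [hg1.1]
    exact_mod_cast this
  · have : ((g 1 : ℕ) : ℝ) ≤ ((P1 + k : ℕ) : ℝ) := by push_cast; linarith [hg1.2]
    exact_mod_cast this
  · have : (P2 : ℝ) ≤ g 2 := by linarith [hg2.1]
    exact_mod_cast this
  · have : ((g 2 : ℕ) : ℝ) ≤ ((P2 + k : ℕ) : ℝ) := by push_cast; linarith [hg2.2]
    exact_mod_cast this
  · rw [hP2, hh2]
    refine Nat.floor_le_floor ?_
    rw [m7]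
    linarith
  · have hr := hroom l hl
    have hgl := (hg l hl).2
    have r1 := mul_le_mul_of_nonneg_right hr.le hJ0
    have r2 : ν * X ≤ X := mul_le_of_le_one_left hX0 hν1
    have r3 : (L l + Eb + 2 * q) * J = L l * J + Eb * J + 2 * X := by rw [hX]; ring
    have : ((e + g l + n : ℕ) : ℝ) ≤ J := by push_cast; linarith
    exact_mod_cast this
  · have : ((P1 + w3 + n : ℕ) : ℝ) ≤ ((w + h1 : ℕ) : ℝ) := by push_cast; linarith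
    exact_mod_cast this
  · have r1 : s * v * X = v * X + (s - 1) * v * X := by ring
    have : ((P2 + w2 + n : ℕ) : ℝ) ≤ ((w + h2 : ℕ) : ℝ) := by push_cast; linarith
    exact_mod_cast this
  · have r1 := mul_le_mul_of_nonneg_right hl1' hJ0
    have r2 : (L 1 + s * v * q + μ * q) * J = L 1 * J + s * v * X + M := by rw [hM, hX]; ring
    have r3 : s * X = X + (s - 1) * X := by ring
    have : ((g' 1 + w3 + n : ℕ) : ℝ) ≤ ((w + h1 : ℕ) : ℝ) := by push_cast; linarith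
    exact_mod_cast this
  · have : ((C * (k + 1) : ℕ) : ℝ) ≤ n := by push_cast; linarith
    exact_mod_cast this
  · have r0 : 0 < μ * q := by positivity
    have r1 : 1 / (μ * q) ≤ ⌈1 / (μ * q)⌉₊ := Nat.le_ceil _
    have r2 : (J : ℝ) ≤ 1 / (μ * q) * k := by
      rw [one_div, le_inv_mul_iff₀ r0, e1]
      linarith
    have : (J : ℝ) ≤ ((⌈1 / (μ * q)⌉₊ * k : ℕ) : ℝ) := by
      push_cast
      exact r2.trans (mul_le_mul_of_nonneg_right r1 (Nat.cast_nonneg k))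
    exact_mod_cast this
  · have : ((C * (k + 1) : ℕ) : ℝ) ≤ lam := by push_cast; linarith
    exact_mod_cast this

end Pool.NVA91
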