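import Pool.Agent.H24.NV.One
import Pool.Agent.H71.NV.Nvb
import Pool.Agent.H72.T4C.Wnt
import Pool.Agent.H91.NVA.Fre
import Pool.Agent.H91.NVA.Vel
import Pool.Agent.H91.NVA.Num

/-!
# Nearly affine labels of the place three, class level

`afp_of`: an affine closed label as `AfP`. `naf_cls`: `NAf` at a window from balls at two windows and
affine labels, from `NvOneStmt`.
-/

set_option autoImplicit false

namespace Pool.NVA91

open Finset Real MvPolynomial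
open Pool.Agent.H49.Ent Pool.Agent.H32.Dense Pool.STK Pool.KA Pool.KSAT Pool.K2S Pool.PB Pool.S6C
open Pool.GEN Pool.CHT Pool.ISO Pool.D2R Pool.NV24
open Pool.FLF (Fam.sub)
open Pool.GRD (LbP)
open Pool.CDX (AffL)
open Pool.T4C72 (WinbAt)
open Pool.NV71 (NAf)
open Pool.LBT (ThrOf)
open Pool.LEV (Law)

variable {m J : ℕ}

/-- **An affine closed label** as `AfP`, at a later window. -/
theorem afp_of {F : Fam m J} {c : ℕ → Fin m} {i w b P P' : ℕ} {A : F.Ω → Prop} {V : Type}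
    {z : PtT F → V} {z' : LnT F → V} {G : V → MvPolynomial (Option (Fin m)) ℝ}
    (h : LbP F ((range i).image c) (c i) 1 J b P' A z z' G) (hb : b ≤ w) (hw : w ≤ J)
    (hP : P ≤ P') : AfP F c i w P A (fun y => G (z y))
      (fun s => G (z' (s.1, s.2.1, s.2.2 / 2 ^ (w - b)))) := by
  have hd : ∀ v, DepC c i (G v) := fun v x x' h0 h1 => h.dep v x x' h0 fun j hj => by
    obtain ⟨l, hl, rfl⟩ := Finset.mem_image.1 hj
    exact h1 l (Finset.mem_range.1 hl)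
  have hcls : ∀ ω, A ω → z (ptr F J ω) = z' (F.l ω, F.Z ω, F.T1 w ω / 2 ^ (w - b)) :=
    fun ω hω => by
      rw [h.cls ω hω, slam_coarse F hb hw ω]
      rfl
  refine ⟨fun y => h.deg _, fun s => h.deg _, fun y => hd _, fun s => hd _, fun ω hω => ?_,
    fun ω hω => ?_⟩
  · show G (z (ptr F J ω)) = G (z' (F.l ω, F.Z ω, F.T1 w ω / 2 ^ (w - b)))
    rw [hcls ω hω]
  · show |F.x ω (c i) - eval (bt F ω) (G (z (ptr F J ω)))| ≤ 1 / 2 ^ P
    rw [h.cls ω hω]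
    exact (h.pos ω hω).trans
      (one_div_le_one_div_of_le (by positivity) (pow_le_pow_right₀ (by norm_num) hP))

/-- The affine labels on the parts of the events of a class. -/
theorem affL_part {S : PCl m} {I : Finset (Fin m)} {k : Fin m} {b p e K₁ : ℝ}
    (h : AffL S I k b p) (he : 0 < e) (hK : 0 < K₁) :
    Bas S (fun J F A => ∀ B : F.Ω → Prop, Sub B A → Pe F.p A ≤ K₁ * Pe F.p B →
      ∃ (V : Type) (z : PtT F → V) (z' : LnT F → V) (G : V → MvPolynomial (Option (Fin m)) ℝ),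
        LbP F I k 1 J ⌊b * J⌋₊ ⌊(p - e) * J⌋₊ B z z' G) :=
  Pool.GRW.bas_part (h e he) hK

/-- **The nearly affine label of the place three**, class level. -/
theorem naf_cls {m D : ℕ} (hN : NvOneStmt m D) (hD : 1 ≤ D) {s κ : ℝ} (hs : 1 < s)
    (hκ : 0 < κ) : ∃ ε : ℝ, 0 < ε ∧ ∀ {S₀ : ℕ} {CB : ℝ}, WinbAt m 3 S₀ D D CB →
    ∀ {S : PCl m} {P : List (Fin m) × Fin m → ℝ → ℝ → ℝ} {θ C₀ : ℝ} {c : ℕ → Fin m}
    {Pt : ℝ → ℝ → ℝ}, ThrOf (chsys m θ) S P → 0 < θ → TmH S → TmC S C₀ →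
    Set.InjOn c (Set.Iio 4) → Law Pt → Pool.MIC6.ActF S (c 0) →
    ∀ {t q v Eb : ℝ} {L : ℕ → ℝ → ℝ}, (∀ l ≤ 3, ∀ x, lvN P c 3 Pt l x x = L l x) → 0 < q →
    v = (s - 1) / (2 * s) → 0 < t → t + 2 * q < 1 → 0 ≤ Eb →
    BalD S P θ c 3 Pt (t + 2 * q) t S₀ Eb → BalD S P θ c 3 Pt (t + 2 * q) (t + v * q) S₀ Eb →
    L 0 t = t → L 1 (t + v * q) ≤ L 1 t + s * v * q + ε * q → q ≤ L 1 t → q ≤ L 2 t →
    (∃ b p : ℝ, b ≤ t ∧ L 1 t - ε * q ≤ p ∧ AffL S ((range 1).image c) (c 1) b p) →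
    (∃ b p : ℝ, b ≤ t ∧ L 2 t - ε * q ≤ p ∧ AffL S ((range 2).image c) (c 2) b p) →
    (∃ b p : ℝ, b ≤ t + q ∧ L 1 t + s * q - ε * q ≤ p ∧
      AffL S ((range 1).image c) (c 1) b p) →
    (∃ b p : ℝ, b ≤ t + v * q ∧ L 2 t + s * v * q - ε * q ≤ p ∧
      AffL S ((range 2).image c) (c 2) b p) →
    NAf S c 3 t (L 3 t) (κ * q) := by
  obtain ⟨C, hN⟩ := hN
  have hC0 : (0 : ℝ) ≤ C := Nat.cast_nonneg C
  have hl0 : 0 < Real.log 2 := Real.log_pos (by norm_num)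
  have hl1 : Real.log 2 ≤ 1 := by
    have := Real.log_two_lt_d9
    linarith
  have hs0 : 0 < s := by linarith
  have hs1 : 0 < s - 1 := by linarith
  obtain ⟨v, hv⟩ : ∃ v : ℝ, v = (s - 1) / (2 * s) := ⟨_, rfl⟩
  have hv0 : 0 < v := by rw [hv]; positivity
  have hsv : s * v = (s - 1) / 2 := by
    rw [hv]
    field_simp
  have hv1 : v ≤ 1 := by
    rw [hv, div_le_one (by positivity)]
    linarith
  obtain ⟨ν, hν⟩ : ∃ ν : ℝ, ν = min 1 (min ((s - 1) / 8) ((s - 1) * v / 2)) := ⟨_, rfl⟩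
  have hν0 : 0 < ν := by
    rw [hν]
    exact lt_min one_pos (lt_min (by positivity) (by positivity))
  have hν1 : ν ≤ 1 := by rw [hν]; exact min_le_left _ _
  have hνs : ν ≤ (s - 1) / 8 := by rw [hν]; exact (min_le_right _ _).trans (min_le_left _ _)
  have hνv : ν ≤ (s - 1) * v / 2 := by rw [hν]; exact (min_le_right _ _).trans (min_le_right _ _)
  obtain ⟨μ, hμ⟩ : ∃ μ : ℝ, μ = min (min (1 / 8) ((s - 1) / 100))
    (min (ν / (8 * ((C : ℝ) + 1))) (κ / (8 * ((C : ℝ) + 1)))) := ⟨_, rfl⟩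
  have hμ0 : 0 < μ := by
    rw [hμ]
    exact lt_min (lt_min (by norm_num) (by positivity)) (lt_min (by positivity) (by positivity))
  have hμ1 : μ ≤ 1 / 8 := by rw [hμ]; exact (min_le_left _ _).trans (min_le_left _ _)
  have hμs : μ ≤ (s - 1) / 100 := by rw [hμ]; exact (min_le_left _ _).trans (min_le_right _ _)
  have hμν : 8 * ((C : ℝ) + 1) * μ ≤ ν := by
    have h1 : μ ≤ ν / (8 * ((C : ℝ) + 1)) := by
      rw [hμ]; exact (min_le_right _ _).trans (min_le_left _ _)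
    rw [le_div_iff₀ (by positivity)] at h1
    linarith
  have hμκ : 8 * ((C : ℝ) + 1) * μ ≤ κ := by
    have h1 : μ ≤ κ / (8 * ((C : ℝ) + 1)) := by
      rw [hμ]; exact (min_le_right _ _).trans (min_le_right _ _)
    rw [le_div_iff₀ (by positivity)] at h1
    linarith
  have hμκ1 : μ ≤ κ := by nlinarith
  refine ⟨μ, hμ0, ?_⟩
  intro S₀ CB hWb S P θ C₀ c Pt hP hθ hS htm hc hLaw hact t q v' Eb L hlv hq hv' ht ht1 hEb hb0 hb1
    hL0 hL1' hL1 hL2 hA1 hA2 hA3 hA4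
  obtain ⟨b1, p1, hA11, hA12, hA13⟩ := hA1
  obtain ⟨b2, p2, hA21, hA22, hA23⟩ := hA2
  obtain ⟨b3, p3, hA31, hA32, hA33⟩ := hA3
  obtain ⟨b4, p4, hA41, hA42, hA43⟩ := hA4
  obtain rfl : v' = v := by rw [hv', hv]
  have hμq : 0 < μ * q := by positivity
  have hvq : v' * q ≤ q := mul_le_of_le_one_left hq.le hv1
  have hvq0 : 0 < v' * q := by positivity
  -- the windows of the balls
  obtain ⟨o, ho⟩ : ∃ o : ℕ → ℝ, o = fun k => if k = 0 then t else t + v' * q := ⟨_, rfl⟩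
  have ho0 : o 0 = t := by rw [ho]; rfl
  have ho1 : o 1 = t + v' * q := by rw [ho]; rfl
  have hcase : ∀ k ≤ 1, o k = t ∨ o k = t + v' * q := fun k hk => by
    have : k = 0 ∨ k = 1 := by omega
    rcases this with rfl | rfl
    · exact Or.inl ho0
    · exact Or.inr ho1
  obtain ⟨K₁, bb, hK₁, hball⟩ := hWb (S := S) (P := P) (θ := θ) (c := c) (Pt := Pt)
    (a := t + 2 * q) (Eb := Eb) (ηm := μ * q) (o := o) (η := fun _ => μ * q)
    (σ := fun _ => μ * q) (r₀ := fun _ => q / 2) 1 0 hP hθ hS hc hLaw hEb (fun k hk => by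
      rcases hcase k hk with h | h <;> rw [h]
      · exact hb0
      · exact hb1) (fun k _ => ⟨hμq, hμq, le_rfl, by positivity, le_rfl⟩)
  -- the constants of the relations
  obtain ⟨K, hK⟩ : ∃ K, K = ⌈1 / (μ * q)⌉₊ := ⟨_, rfl⟩
  obtain ⟨κr, hκr⟩ : ∃ κr : ℝ, κr = 1 / (((C : ℝ) + 1) * ((K : ℝ) + 1)) := ⟨_, rfl⟩
  have hκr0 : 0 < κr := by rw [hκr]; positivity
  have hκr1 : κr * ((C : ℝ) * ((K : ℝ) + 1)) ≤ 1 := by
    rw [hκr, one_div, inv_mul_le_iff₀ (by positivity), mul_one]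
    refine mul_le_mul_of_nonneg_right (by linarith) (by positivity)
  have hx3 : 0 < 1 - (t + q) := by linarith
  obtain ⟨ψ, hψ⟩ : ∃ ψ : ℝ, ψ = min ((1 - (t + q)) * Real.log 2 / (2 * ((C : ℝ) + 1)))
    (μ * q / ((C : ℝ) + 1)) := ⟨_, rfl⟩
  have hψ0 : 0 < ψ := by rw [hψ]; exact lt_min (by positivity) (by positivity)
  have hψ1 : (C : ℝ) * ψ ≤ (1 - (t + q)) * Real.log 2 / 2 := by
    have h1 : ψ ≤ (1 - (t + q)) * Real.log 2 / (2 * ((C : ℝ) + 1)) := by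
      rw [hψ]; exact min_le_left _ _
    rw [le_div_iff₀ (by positivity)] at h1
    nlinarith
  have hψ2 : (C : ℝ) * ψ ≤ μ * q := by
    have h1 : ψ ≤ μ * q / ((C : ℝ) + 1) := by rw [hψ]; exact min_le_right _ _
    rw [le_div_iff₀ (by positivity)] at h1
    nlinarith
  have f1 := affL_part hA13 hμq hK₁
  have f2 := affL_part hA23 hμq hK₁
  have f3 := affL_part hA33 hμq hK₁
  have f4 := affL_part hA43 hμq hK₁
  have f5 := Pool.GRW.bas_part (hS.2 ψ hψ0) hK₁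
  have f6 := Pool.GRW.bas_part (fre_act hact D (4 * (μ * q)) κr (by positivity) hκr0) hK₁
  have f7 := Pool.GRW.bas_part (fre_tm htm D t (4 * (μ * q)) κr ht.le (by linarith)
    (by positivity) hκr0) hK₁
  obtain ⟨J₁, hJ₁⟩ := exists_nat_ge (4 / (μ * q))
  obtain ⟨J₂, hJ₂⟩ := exists_nat_ge ((C : ℝ) / ((1 - (t + q)) * Real.log 2 / 2))
  obtain ⟨J₃, hJ₃⟩ := exists_nat_ge (((C : ℝ) + 1) / (μ * q))
  have f0 : Bas S (fun _ F A => 0 < Pe F.p A) := ⟨1, one_pos, 0, fun J _ F A h => hS.1 _ J F A h⟩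
  refine ⟨K₁ * (C + 1), D, by positivity, ?_⟩
  refine Bas.mono (J₁ + J₂ + J₃) (f0.and ((hball κr hκr0).and (f1.and (f2.and (f3.and (f4.and
    (f5.and (f6.and f7)))))))) ?_
  rintro J hJ F A ⟨hA0, hb, g1, g2, g3, g4, g5, g6, g7⟩
  have hJ0 : (0 : ℝ) ≤ J := Nat.cast_nonneg J
  have j1 : 4 ≤ μ * q * J := by
    have h1 : (J₁ : ℝ) ≤ J := by exact_mod_cast (by omega : J₁ ≤ J)
    have h2 := hJ₁.trans h1
    rw [div_le_iff₀ hμq] at h2
    linarith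
  have j2 : (C : ℝ) ≤ (1 - (t + q)) * Real.log 2 / 2 * J := by
    have h1 : (J₂ : ℝ) ≤ J := by exact_mod_cast (by omega : J₂ ≤ J)
    have h2 := hJ₂.trans h1
    rw [div_le_iff₀ (by positivity)] at h2
    linarith
  have j3 : (C : ℝ) + 1 ≤ μ * q * J := by
    have h1 : (J₃ : ℝ) ≤ J := by exact_mod_cast (by omega : J₃ ≤ J)
    have h2 := hJ₃.trans h1
    rw [div_le_iff₀ hμq] at h2
    linarith
  have hqJ : 32 ≤ q * J := by
    have h1 : μ * (q * J) ≤ 1 / 8 * (q * J) := mul_le_mul_of_nonneg_right hμ1 (by positivity)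
    linarith
  -- the balls
  obtain ⟨B, g₀, G, H, hBA, hPB, W⟩ := hb (fun k _ => ⌊(t + 2 * q) * J⌋₊ - ⌊o k * J⌋₊)
    (fun k hk i _ => ⟨by
      have h1 : o k ≤ t + q := by rcases hcase k hk with h | h <;> rw [h] <;> linarith
      have h0 : 0 ≤ o k := by rcases hcase k hk with h | h <;> rw [h] <;> linarith
      have h2 : (⌊o k * J⌋₊ : ℝ) ≤ o k * J := Nat.floor_le (by positivity)
      have h3 := Nat.lt_floor_add_one ((t + 2 * q) * J)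
      have h4 : o k * J ≤ (t + q) * J := mul_le_mul_of_nonneg_right h1 hJ0
      have h5 : ⌊o k * J⌋₊ ≤ ⌊(t + 2 * q) * J⌋₊ :=
        Nat.floor_le_floor (mul_le_mul_of_nonneg_right (by linarith) hJ0)
      rw [Nat.cast_sub h5]
      nlinarith, le_rfl⟩)
  have hB0 : 0 < Pe F.p B := by
    by_contra hcon
    have h1 : K₁ * Pe F.p B ≤ 0 := mul_nonpos_of_nonneg_of_nonpos hK₁.le (not_lt.1 hcon)
    linarith
  have e0 := W.ev 0 (by norm_num)
  have e1 := W.ev 1 (by norm_num)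
  rw [ho0] at e0
  rw [ho1] at e1
  have hroom : ∀ l ≤ 3, L l t + Eb + 2 * q < 1 := fun l hl => by
    have h1 := hb0.top l hl
    rw [hlv l hl t] at h1
    linarith
  have hsd0 : ∀ l ≤ 3, (L l t - μ * q) * J ≤ g₀ 0 l ∧ (g₀ 0 l : ℝ) ≤ L l t * J := fun l hl => by
    have h1 := W.sds 0 (by norm_num) l hl
    rw [ho0, hlv l hl t] at h1
    exact h1
  have hsd1 : (g₀ 1 1 : ℝ) ≤ L 1 (t + v' * q) * J := by
    have h1 := (W.sds 1 (by norm_num) 1 (by norm_num)).2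
    rw [ho1, hlv 1 (by norm_num)] at h1
    exact h1
  obtain ⟨⟨n1, n2, n3⟩, n4, ⟨n5, n6⟩, ⟨n7, n8⟩, ⟨n9, n10⟩, n11, n12, n13, n14, n15, n16, n17,
    n18⟩ := nv_num (L := fun l => L l t) (g := g₀ 0) (g' := g₀ 1) hq hs hsv hv0.le hv1 ht ht1 hEb
      hμ0 hμ1 hμs hμν hμκ hν1 hνs hνv hL0 hL1 hL2 hroom hsd0 hsd1 hL1' j1
  have hfl : ∀ {x y : ℝ}, x ≤ y → ⌊x * J⌋₊ ≤ ⌊y * J⌋₊ := fun h =>
    Nat.floor_le_floor (mul_le_mul_of_nonneg_right h hJ0)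
  -- the labels
  obtain ⟨V1, z1, z1', G1, q1⟩ := g1 B hBA hPB
  obtain ⟨V2, z2, z2', G2, q2⟩ := g2 B hBA hPB
  obtain ⟨V3, z3, z3', G3, q3⟩ := g3 B hBA hPB
  obtain ⟨V4, z4, z4', G4, q4⟩ := g4 B hBA hPB
  have u1 := afp_of q1 (hfl hA11) (n1.trans (n2.trans n3))
    (P := ⌊(L 1 t - 2 * (μ * q)) * J⌋₊) (hfl (by linarith))
  have u2 := afp_of q2 (hfl hA21) (n1.trans (n2.trans n3))
    (P := ⌊(L 2 t - 2 * (μ * q)) * J⌋₊) (hfl (by linarith))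
  have u3 := afp_of q3 (hfl hA31) n3
    (P := ⌊(L 1 t + s * q - 2 * (μ * q)) * J⌋₊) (hfl (by linarith))
  have u4 := afp_of q4 (hfl hA41) (n2.trans n3)
    (P := ⌊(L 2 t + s * v' * q - 2 * (μ * q)) * J⌋₊) (hfl (by linarith))
  have hTm := g5 B hBA hPB hB0
  -- the time
  have hψJ : 0 ≤ ψ * J := by positivity
  have t1 : (C : ℝ) * (ψ * J + 1) ≤ ((J : ℝ) - (⌊(t + q) * J⌋₊ : ℕ)) * Real.log 2 := by
    have h1 : ((⌊(t + q) * J⌋₊ : ℕ) : ℝ) ≤ (t + q) * J := Nat.floor_le (by positivity)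
    have h2 : (1 - (t + q)) * J * Real.log 2 ≤ ((J : ℝ) - (⌊(t + q) * J⌋₊ : ℕ)) * Real.log 2 :=
      mul_le_mul_of_nonneg_right (by linarith) hl0.le
    refine le_trans ?_ h2
    have h3 := mul_le_mul_of_nonneg_right hψ1 hJ0
    linarith
  have t2 : (C : ℝ) * (ψ * J + 1) ≤ (⌊4 * (μ * q) * J⌋₊ : ℕ) := by
    have h1 := Nat.lt_floor_add_one (4 * (μ * q) * J)
    have h3 := mul_le_mul_of_nonneg_right hψ2 hJ0
    linarith
  obtain ⟨B', k1, k2, k3⟩ := hN (J := J) (F := F) (c := c) (A := B) hB0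
    (w := ⌊t * J⌋₊) (w2 := ⌊(t + v' * q) * J⌋₊) (w3 := ⌊(t + q) * J⌋₊)
    (e := ⌊(Eb + μ * q + μ * q) * J⌋₊) (e2 := ⌊(Eb + μ * q + μ * q) * J⌋₊)
    (h := ⌊μ * q * J⌋₊) (Dr := D) (k := ⌊4 * (μ * q) * J⌋₊) (n := ⌊ν * q * J⌋₊) (K := K)
    (κ := κr) (κ₀ := κr) (θ := ψ * J) (g := g₀ 0) (g' := g₀ 1) (G := G 0) (G2 := G 1)
    (H := H 0) (H2 := H 1) hc hD le_rfl n1 n2 n3 e0.ball e0.cls e0.relb e1.ball e1.relb u1 u2 u3
    u4 hψJ hTm t1 t2 (g6 B hBA hPB) (g7 B hBA hPB) n4 n5 n6 n7 n8 n9 n10 n11 n12 n13 n14 n15 n16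
    (by rw [hK]; exact n17) hκr1 hκr1
  have hB'B : Pe F.p B ≤ (C + 1) * Pe F.p B' := by
    have h1 := Pe_nonneg F.isLaw B'
    linarith
  refine ⟨B', g₀ 0, ⌊(Eb + μ * q + μ * q) * J⌋₊, G 0, H 0, fun ω h => hBA ω (k1 ω h), ?_,
    e0.ball.sub k1, e0.cls.sub k1, ?_, fun ω hω => ?_⟩
  · refine hPB.trans ?_
    rw [mul_assoc]
    exact mul_le_mul_of_nonneg_left hB'B hK₁.le
  · refine le_trans ?_ (hsd0 3 le_rfl).1
    refine mul_le_mul_of_nonneg_right ?_ hJ0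
    have := mul_le_mul_of_nonneg_right hμκ1 hq.le
    linarith
  · obtain ⟨Q, r1, r2, r3⟩ := k3 ω hω
    refine ⟨Q, r1, r2, fun b hb => (r3 b hb).trans ?_⟩
    exact div_le_div_of_nonneg_right (pow_le_pow_right₀ (by norm_num) n18) (by positivity)

end Pool.NVA91
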