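import Pool.Agent.H24.NV.S
import Pool.Agent.H64.F5.Lvb
import Pool.Agent.H91.T4.Af0

/-!
# Affine labels: values, slopes, and comparison with the ball label

`aff_ev`: the values of an affine polynomial from its slopes. `afBall`: an affine label is near the
ball label of the same window on the natural box. `slope`: the slope of the label of `c 2` in the
direction `c 1`.
-/

set_option autoImplicit false

namespace Pool.NVA91

open Finset Real MvPolynomial
open Pool.Agent.H49.Ent Pool.Agent.H32.Dense Pool.STK Pool.KA Pool.KSAT Pool.K2S Pool.PB Pool.S6C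
open Pool.GEN Pool.CHT Pool.ISO Pool.D2R Pool.NV24
open Pool.FLF (Fam.sub)
open Pool.FVL91 (eval_one)

variable {m J : ℕ}

theorem aff_eq {σ : Type} [Fintype σ] {H : MvPolynomial σ ℝ} (h : H.totalDegree ≤ 1) :
    H = C (coeff 0 H) + ∑ o, C (coeff (Finsupp.single o 1) H) * X o := by
  refine MvPolynomial.funext fun x => ?_
  rw [eval_one h]
  simp only [map_add, eval_C, map_sum, map_mul, eval_X]

/-- The derivatives of an affine polynomial are constant. -/
theorem aff_pd {H : MvPolynomial (Option (Fin m)) ℝ} (h : H.totalDegree ≤ 1)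
    (o : Option (Fin m)) (b : Option (Fin m) → ℝ) :
    eval b (pderiv o H) = coeff (Finsupp.single o 1) H := by
  classical
  conv_lhs => rw [aff_eq h]
  simp only [map_add, map_sum, pderiv_C, pderiv_C_mul, eval_C, pderiv_X, zero_add,
    map_mul]
  rw [Finset.sum_eq_single o]
  · simp
  · intro o' _ ho'
    simp [ho']
  · intro h
    exact (h (mem_univ _)).elim

theorem pc_coe {H : MvPolynomial (Option (Fin m)) ℝ} (h : H.totalDegree ≤ 1)
    (o : Option (Fin m)) : pc H o = coeff (Finsupp.single o 1) H := aff_pd h o _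

theorem pc_pd {H : MvPolynomial (Option (Fin m)) ℝ} (h : H.totalDegree ≤ 1)
    (o : Option (Fin m)) (b : Option (Fin m) → ℝ) : eval b (pderiv o H) = pc H o := by
  rw [aff_pd h, pc_coe h]

/-- **The values of an affine polynomial.** -/
theorem aff_ev {H : MvPolynomial (Option (Fin m)) ℝ} (h : H.totalDegree ≤ 1)
    (b b' : Option (Fin m) → ℝ) : eval b' H - eval b H = ∑ o, (b' o - b o) * pc H o := by
  rw [eval_one h, eval_one h, add_sub_add_left_eq_sub, ← Finset.sum_sub_distrib]
  refine Finset.sum_congr rfl fun o _ => ?_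
  rw [pc_coe h]
  ring

theorem pc_sub (U V : MvPolynomial (Option (Fin m)) ℝ) (o : Option (Fin m)) :
    pc (U - V) o = pc U o - pc V o := by
  unfold pc
  rw [map_sub, map_sub]

/-- The slopes of an affine label: only in the directions of the earlier places. -/
theorem pc_dep {c : ℕ → Fin m} {i : ℕ} {H : MvPolynomial (Option (Fin m)) ℝ}
    (h : H.totalDegree ≤ 1) (hd : DepC c i H) {o : Fin m} (ho : ∀ l < i, c l ≠ o) :
    pc H (some o) = 0 := by
  classical
  obtain ⟨b', hb'⟩ : ∃ b' : Option (Fin m) → ℝ, b' = Function.update (fun _ => 0) (some o) 1 :=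
    ⟨_, rfl⟩
  have h1 := aff_ev h (fun _ => 0) b'
  rw [hd b' (fun _ => 0) (by rw [hb', Function.update_of_ne (by simp)]) (fun l hl => by
    rw [hb', Function.update_of_ne (by simpa using ho l hl)]), sub_self,
    Finset.sum_eq_single (some o)] at h1
  · rw [hb', Function.update_self] at h1
    simp only [sub_zero, one_mul] at h1
    exact h1.symm
  · intro o' _ ho'
    rw [hb', Function.update_of_ne ho']
    simp
  · intro h
    exact (h (mem_univ _)).elim

/-- **(P2) An affine label is near the ball label.** -/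
theorem afBall : AfBallStmt := by
  intro m J F c w e h Dr D g κ κ' B G H i P U U' hc hD hDr hi hch hcl hR hκ hU hP B' hB' hPB
  have hc3 : Set.InjOn c (Set.Iio 3) := hc.mono (Set.Iio_subset_Iio (by omega))
  have hR' := (Pool.F5.relv_pre hc3 (fun y l => hch.depG y l) hR (i := i) (by omega)).mono
    (le_refl Dr) hκ
  obtain ⟨B'', k1, k2, k3⟩ := hR' B' hB' hPB (fun y => U y - G y i) (fun s => U' s - H s i)
    (2 / 2 ^ P) (fun y => (totalDegree_sub _ _).trans (max_le ((hU.dP y).trans (by omega))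
      ((hch.degG y i).trans hDr)))
    (fun s => (totalDegree_sub _ _).trans (max_le ((hU.dL s).trans (by omega))
      ((hch.degH s i).trans hDr)))
    (fun y b b' h0 h1 => by
      rw [map_sub, map_sub, hU.eP y b b' h0 h1, hch.depG y i b b' h0 h1])
    (fun s b b' h0 h1 => by
      rw [map_sub, map_sub, hU.eL s b b' h0 h1, hch.depH s i b b' h0 h1]) (by positivity)
    (fun ω hω => by
      have h1 := hU.pos ω (hB' ω hω)
      have h2 := hch.pos ω (hB' ω hω) i (by omega)
      have h3 : (1 : ℝ) / 2 ^ g i ≤ 1 / 2 ^ P :=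
        one_div_le_one_div_of_le (by positivity) (pow_le_pow_right₀ (by norm_num) hP)
      rw [map_sub]
      calc |eval (bt F ω) (U (ptr F J ω)) - eval (bt F ω) (G (ptr F J ω) i)| =
            |(F.x ω (c i) - eval (bt F ω) (G (ptr F J ω) i)) -
              (F.x ω (c i) - eval (bt F ω) (U (ptr F J ω)))| := by
            congr 1
            ring
        _ ≤ _ := abs_sub _ _
        _ ≤ 1 / 2 ^ g i + 1 / 2 ^ P := add_le_add h2 h1
        _ ≤ 1 / 2 ^ P + 1 / 2 ^ P := by linarith
        _ = 2 / 2 ^ P := by ring)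
    (fun ω hω b _ => by
      rw [map_sub, map_sub, hU.cls ω (hB' ω hω), hcl ω (hB' ω hω) i (by omega), sub_self,
        abs_zero]
      positivity)
  refine ⟨B'', k1, k2, fun ω hω b hb => ?_⟩
  have h1 := k3 ω hω b hb
  rw [map_sub] at h1
  refine h1.trans (le_of_eq ?_)
  rw [pow_succ]
  ring

/-- **(P2) The slope of the label of `c 2` in the direction `c 1`.** -/
theorem slope : SlopeStmt := by
  refine ⟨2, ?_⟩
  intro m J F c w w2 e h Dr D g κ κ' B G H P P2 V V2 V' V2' hc hD hDr hw hw2 hch hR hκ hV hV2 hP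
    B' hB' hPB
  classical
  have hc3 : Set.InjOn c (Set.Iio 3) := hc.mono (Set.Iio_subset_Iio (by omega))
  have hR' := (Pool.F5.relv_pre hc3 (fun y l => hch.depG y l) hR (i := 2) (by omega)).mono
    (le_refl Dr) hκ
  have hcls : ∀ ω, V' (F.l ω, F.Z ω, F.T1 w2 ω / 2 ^ (w2 - w)) = V' (slam F w ω) := fun ω => by
    rw [slam_coarse F hw hw2 ω]
    rfl
  obtain ⟨B'', k1, k2, k3⟩ := hR' B' hB' hPB (fun y => V2 y - V y)
    (fun s => V2' s - V' (s.1, s.2.1, s.2.2 / 2 ^ (w2 - w))) (2 / 2 ^ P)
    (fun y => (totalDegree_sub _ _).trans (max_le ((hV2.dP y).trans (by omega))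
      ((hV.dP y).trans (by omega))))
    (fun s => (totalDegree_sub _ _).trans (max_le ((hV2.dL s).trans (by omega))
      ((hV.dL _).trans (by omega))))
    (fun y b b' h0 h1 => by
      rw [map_sub, map_sub, hV2.eP y b b' h0 h1, hV.eP y b b' h0 h1])
    (fun s b b' h0 h1 => by
      rw [map_sub, map_sub, hV2.eL s b b' h0 h1, hV.eL _ b b' h0 h1]) (by positivity)
    (fun ω hω => by
      have h1 := hV.pos ω (hB' ω hω)
      have h2 := hV2.pos ω (hB' ω hω)
      have h3 : (1 : ℝ) / 2 ^ P2 ≤ 1 / 2 ^ P :=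
        one_div_le_one_div_of_le (by positivity) (pow_le_pow_right₀ (by norm_num) hP)
      rw [map_sub]
      calc |eval (bt F ω) (V2 (ptr F J ω)) - eval (bt F ω) (V (ptr F J ω))| =
            |(F.x ω (c 2) - eval (bt F ω) (V (ptr F J ω))) -
              (F.x ω (c 2) - eval (bt F ω) (V2 (ptr F J ω)))| := by
            congr 1
            ring
        _ ≤ _ := abs_sub _ _
        _ ≤ 1 / 2 ^ P + 1 / 2 ^ P2 := add_le_add h1 h2
        _ ≤ 1 / 2 ^ P + 1 / 2 ^ P := by linarith
        _ = 2 / 2 ^ P := by ring)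
    (fun ω hω b _ => by
      rw [map_sub, map_sub, hV2.cls ω (hB' ω hω), hV.cls ω (hB' ω hω)]
      show |eval b (V2' (slam F w2 ω)) - eval b (V' (slam F w ω)) - (eval b (V2' (slam F w2 ω)) -
        eval b (V' (F.l ω, F.Z ω, F.T1 w2 ω / 2 ^ (w2 - w))))| ≤ _
      rw [hcls ω, sub_self, abs_zero]
      positivity)
  refine ⟨B'', k1, k2, fun ω hω => ?_⟩
  have hωB : B ω := hB' ω (k1 ω hω)
  have hself := hch.self hωB (i := 2) (by omega)
  obtain ⟨u, hu, hu'⟩ : ∃ u : ℝ, |u| = 1 / 2 ^ g 1 ∧
      |bt F ω (some (c 1)) + u - eval (bt F ω) (G (ptr F J ω) 1)| ≤ 1 / 2 ^ g 1 := by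
    have h1 := hself.2 1 (by norm_num)
    rw [abs_le] at h1
    by_cases h0 : 0 ≤ bt F ω (some (c 1)) - eval (bt F ω) (G (ptr F J ω) 1)
    · refine ⟨-(1 / 2 ^ g 1), ?_, ?_⟩
      · rw [abs_neg, abs_of_pos (by positivity)]
      · rw [abs_le]
        have : (0 : ℝ) < 1 / 2 ^ g 1 := by positivity
        constructor <;> linarith [h1.1, h1.2]
    · refine ⟨1 / 2 ^ g 1, abs_of_pos (by positivity), ?_⟩
      rw [abs_le]
      push Not at h0
      have : (0 : ℝ) < 1 / 2 ^ g 1 := by positivity
      constructor <;> linarith [h1.1, h1.2]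
  obtain ⟨b', hb'⟩ : ∃ b', b' = Function.update (bt F ω) (some (c 1)) (bt F ω (some (c 1)) + u) :=
    ⟨_, rfl⟩
  have hne : c 0 ≠ c 1 := fun h => by
    have := hc (Set.mem_Iio.2 (show 0 < 4 by norm_num)) (Set.mem_Iio.2 (show 1 < 4 by norm_num)) h
    omega
  have hb0 : b' none = bt F ω none := by
    rw [hb', Function.update_of_ne (by simp)]
  have hb00 : b' (some (c 0)) = bt F ω (some (c 0)) := by
    rw [hb', Function.update_of_ne (by simpa using hne)]
  have hb1 : b' (some (c 1)) = bt F ω (some (c 1)) + u := by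
    rw [hb', Function.update_self]
  have hbox : NBx c (G (ptr F J ω)) g w2 (F.t ω) 2 b' := by
    refine ⟨by rw [hb0]; exact hself.1, fun l hl => ?_⟩
    have h0l : l = 0 ∨ l = 1 := by omega
    rcases h0l with rfl | rfl
    · rw [hb00, hch.depG (ptr F J ω) 0 b' (bt F ω) hb0 (fun l hl => absurd hl (by omega))]
      exact hself.2 0 (by norm_num)
    · rw [hb1, hch.depG (ptr F J ω) 1 b' (bt F ω) hb0 (fun l hl => by
        have : l = 0 := by omega
        rw [this]
        exact hb00)]
      exact hu'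
  have e1 := k3 ω hω _ hbox
  have e2 := k3 ω hω _ hself
  have hdeg : (V2 (ptr F J ω) - V (ptr F J ω)).totalDegree ≤ 1 :=
    (totalDegree_sub _ _).trans (max_le (hV2.dP _) (hV.dP _))
  have e3 := aff_ev hdeg (bt F ω) b'
  rw [Finset.sum_eq_single (some (c 1))] at e3
  · rw [hb1, add_sub_cancel_left, pc_sub] at e3
    have e4 : |u| * |pc (V2 (ptr F J ω)) (some (c 1)) - pc (V (ptr F J ω)) (some (c 1))| ≤
        2 ^ (h + 2) / 2 ^ P := by
      rw [← abs_mul, ← e3]
      refine (abs_sub _ _).trans ((add_le_add e1 e2).trans (le_of_eq ?_))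
      rw [pow_add]
      ring
    rw [hu] at e4
    have hg : (0 : ℝ) < 2 ^ g 1 := by positivity
    calc |pc (V2 (ptr F J ω)) (some (c 1)) - pc (V (ptr F J ω)) (some (c 1))| =
          2 ^ g 1 * (1 / 2 ^ g 1 *
            |pc (V2 (ptr F J ω)) (some (c 1)) - pc (V (ptr F J ω)) (some (c 1))|) := by
          field_simp
      _ ≤ 2 ^ g 1 * (2 ^ (h + 2) / 2 ^ P) := mul_le_mul_of_nonneg_left e4 hg.le
      _ = _ := by
          rw [pow_add _ (h + 2) (g 1)]
          ring
  · intro o _ ho
    rw [hb', Function.update_of_ne ho, sub_self, zero_mul]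
  · intro h
    exact (h (mem_univ _)).elim

end Pool.NVA91
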